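import Pool.Agent.Q207.CF.Filt

/-!
# The names
-/

set_option autoImplicit false

namespace Q207.CF

open ZFSet (pair)
open Pool.Agent.W868 (Fml Sat IsZF nat nat_injective mem_omega_iff fs sn fs_pair sn_pair im mem_im
  gr mem_gr wfF wfF_eq sc nat_mem_omega)

/-! ### The visible conditions -/

/-- The weakest condition. -/
noncomputable def one : ZFSet.{0} := pair ∅ (pair ∅ ∅)

/-- The condition that says `g j ∈ g k`. -/
noncomputable def pat (j k : ZFSet.{0}) : ZFSet.{0} := pair {j, k} (pair {pair j k} ∅)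

/-- The condition that says `g i ∈ g j`, `g j ∈ g k` and `g i ∉ g k`. -/
noncomputable def pat3 (i j k : ZFSet.{0}) : ZFSet.{0} :=
  pair (insert i {j, k}) (pair {pair i j, pair j k} ∅)

theorem fcond_vis {M : Set ZFSet.{0}} {d e : ZFSet.{0}} (hd : d ⊆ ZFSet.omega)
    (hd' : {i | i ∈ d}.Finite) (he : ∀ x ∈ e, ∃ i ∈ d, ∃ j ∈ d, x = pair i j)
    (r : ZFSet.{0} → ℕ) (hr : ∀ a b, pair a b ∈ e → r a < r b) :
    FCond M (pair d (pair e ∅)) := by
  refine ⟨_, _, _, rfl, ⟨hd, hd'⟩, ⟨he, acyclic_of_rank r hr⟩, ⟨?_, ?_, ?_, Or.inl rfl⟩, ?_⟩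
  · exact fun x hx => absurd hx (ZFSet.notMem_empty _)
  · exact fun i y z h => absurd h (ZFSet.notMem_empty _)
  · exact fun i y z h => absurd h (ZFSet.notMem_empty _)
  · exact fun _ i _ j _ y z h => absurd h (ZFSet.notMem_empty _)

theorem vis_mem {M : Set ZFSet.{0}} {g : ℕ → ZFSet.{0}} {d e : ZFSet.{0}}
    (hc : FCond M (pair d (pair e ∅))) :
    pair d (pair e ∅) ∈ Gf M g ↔
      ∀ i j, nat i ∈ d → nat j ∈ d → (pair (nat i) (nat j) ∈ e ↔ g i ∈ g j) := by
  constructor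
  · rintro ⟨-, n, h⟩ i j hi hj
    obtain ⟨d1, e1, f1, d2, e2, f2, h0, h1, h2, h3, -⟩ := h
    obtain ⟨rfl, h8⟩ := ZFSet.pair_inj.1 h0
    obtain ⟨rfl, rfl⟩ := ZFSet.pair_inj.1 h8
    obtain ⟨rfl, h8⟩ := ZFSet.pair_inj.1 h1
    obtain ⟨rfl, rfl⟩ := ZFSet.pair_inj.1 h8
    rw [← h3 _ hi _ hj, pair_mem_En]
    exact ⟨fun h => h.2.2, fun h => ⟨nat_mem_nat.1 (h2 hi), nat_mem_nat.1 (h2 hj), h⟩⟩
  · intro h
    refine ⟨hc, ?_⟩
    obtain ⟨d', e', r', h0, ⟨hdω, hdf⟩, -⟩ := hc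
    obtain ⟨rfl, h8⟩ := ZFSet.pair_inj.1 h0
    obtain ⟨m, hm⟩ : ∃ m, ∀ i, nat i ∈ d → i < m := by
      have h6 : {i : ℕ | nat i ∈ d}.Finite := hdf.preimage (fun a _ b _ hab => nat_injective hab)
      obtain ⟨b, hb⟩ := h6.bddAbove
      exact ⟨b + 1, fun i hi => by
        have := hb (show i ∈ {i : ℕ | nat i ∈ d} from hi)
        omega⟩
    refine ⟨m, _, _, _, _, _, _, rfl, rfl, fun x hx => ?_, fun i hi j hj => ?_, fun x hx => ?_⟩
    · obtain ⟨i, rfl⟩ := mem_omega_iff.1 (hdω hx)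
      exact nat_mem_nat.2 (hm i hx)
    · obtain ⟨i, rfl⟩ := mem_omega_iff.1 (hdω hi)
      obtain ⟨j, rfl⟩ := mem_omega_iff.1 (hdω hj)
      rw [pair_mem_En, h i j hi hj]
      exact ⟨fun h => h.2.2, fun h => ⟨hm i hi, hm j hj, h⟩⟩
    · exact absurd hx (ZFSet.notMem_empty _)

theorem fcond_one {M : Set ZFSet.{0}} : FCond M one := by
  refine fcond_vis (fun x hx => absurd hx (ZFSet.notMem_empty _)) ?_
    (fun x hx => absurd hx (ZFSet.notMem_empty _)) (fun _ => 0)
    (fun a b h => absurd h (ZFSet.notMem_empty _))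
  refine Set.Finite.subset Set.finite_empty fun x hx => ?_
  exact absurd hx (ZFSet.notMem_empty _)

theorem one_mem {M : Set ZFSet.{0}} {g : ℕ → ZFSet.{0}} : one ∈ Gf M g :=
  (vis_mem fcond_one).2 fun _ _ hi => absurd hi (ZFSet.notMem_empty _)

theorem finite_pair (a b : ZFSet.{0}) : {i | i ∈ ({a, b} : ZFSet.{0})}.Finite := by
  refine Set.Finite.subset (Set.toFinite {a, b}) fun x hx => ?_
  simpa using hx

theorem fcond_pat {M : Set ZFSet.{0}} {j k : ℕ} (h : j ≠ k) : FCond M (pat (nat j) (nat k)) := by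
  classical
  refine fcond_vis ?_ (finite_pair _ _) ?_ (fun x => if x = nat k then 1 else 0) ?_
  · intro x hx
    rcases ZFSet.mem_pair.1 hx with rfl | rfl
    · exact nat_mem_omega j
    · exact nat_mem_omega k
  · intro x hx
    exact ⟨_, ZFSet.mem_pair.2 (Or.inl rfl), _, ZFSet.mem_pair.2 (Or.inr rfl),
      ZFSet.mem_singleton.1 hx⟩
  · intro a b hab
    obtain ⟨rfl, rfl⟩ := ZFSet.pair_inj.1 (ZFSet.mem_singleton.1 hab)
    have h1 : nat j ≠ nat k := fun h' => h (nat_injective h')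
    simp [h1]

theorem pat_mem {M : Set ZFSet.{0}} {g : ℕ → ZFSet.{0}} {j k : ℕ} (h : j ≠ k) :
    pat (nat j) (nat k) ∈ Gf M g ↔ g j ∈ g k := by
  rw [pat, vis_mem (fcond_pat h)]
  constructor
  · intro h1
    refine (h1 j k ?_ ?_).1 (ZFSet.mem_singleton.2 rfl)
    · exact ZFSet.mem_pair.2 (Or.inl rfl)
    · exact ZFSet.mem_pair.2 (Or.inr rfl)
  · intro h1 a b ha hb
    rw [ZFSet.mem_pair] at ha hb
    rw [ZFSet.mem_singleton]
    rcases ha with ha | ha <;> rcases hb with hb | hb <;>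
      (have ha' := nat_injective ha
       have hb' := nat_injective hb
       subst ha' hb'
       rw [ZFSet.pair_inj])
    · refine iff_of_false (fun h2 => h (nat_injective h2.2)) (ZFSet.mem_irrefl _)
    · exact iff_of_true ⟨rfl, rfl⟩ h1
    · refine iff_of_false (fun h2 => h (nat_injective h2.2)) (ZFSet.mem_asymm h1)
    · refine iff_of_false (fun h2 => h (nat_injective h2.1).symm) (ZFSet.mem_irrefl _)

theorem fcond_pat3 {M : Set ZFSet.{0}} {i j k : ℕ} (h1 : i ≠ j) (h2 : i ≠ k) (h3 : j ≠ k) :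
    FCond M (pat3 (nat i) (nat j) (nat k)) := by
  classical
  have h1' : nat i ≠ nat j := fun h' => h1 (nat_injective h')
  have h2' : nat i ≠ nat k := fun h' => h2 (nat_injective h')
  have h3' : nat j ≠ nat k := fun h' => h3 (nat_injective h')
  refine fcond_vis ?_ ?_ ?_ (fun x => if x = nat k then 2 else if x = nat j then 1 else 0) ?_
  · intro x hx
    rw [ZFSet.mem_insert_iff, ZFSet.mem_pair] at hx
    rcases hx with rfl | rfl | rfl
    · exact nat_mem_omega _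
    · exact nat_mem_omega _
    · exact nat_mem_omega _
  · refine Set.Finite.subset (Set.toFinite {nat i, nat j, nat k}) fun x hx => ?_
    simpa using hx
  · intro x hx
    rcases ZFSet.mem_pair.1 hx with rfl | rfl
    · exact ⟨_, by simp, _, by simp, rfl⟩
    · exact ⟨nat j, by simp, nat k, by simp, rfl⟩
  · intro a b hab
    rw [ZFSet.mem_pair, ZFSet.pair_inj, ZFSet.pair_inj] at hab
    rcases hab with ⟨rfl, rfl⟩ | ⟨rfl, rfl⟩
    · simp [h1', h2', h3']
    · simp [h3']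

theorem pat3_mem {M : Set ZFSet.{0}} {g : ℕ → ZFSet.{0}} {i j k : ℕ} (h1 : i ≠ j) (h2 : i ≠ k)
    (h3 : j ≠ k) :
    pat3 (nat i) (nat j) (nat k) ∈ Gf M g ↔ g i ∈ g j ∧ g j ∈ g k ∧ g i ∉ g k := by
  have h1' : nat i ≠ nat j := fun h' => h1 (nat_injective h')
  have h2' : nat i ≠ nat k := fun h' => h2 (nat_injective h')
  have h3' : nat j ≠ nat k := fun h' => h3 (nat_injective h')
  rw [pat3, vis_mem (fcond_pat3 h1 h2 h3)]
  constructor
  · intro h
    refine ⟨(h i j (by simp) (by simp)).1 (by simp), (h j k (by simp) (by simp)).1 (by simp), ?_⟩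
    intro h4
    have h5 := (h i k (by simp) (by simp)).2 h4
    rw [ZFSet.mem_pair, ZFSet.pair_inj, ZFSet.pair_inj] at h5
    rcases h5 with h5 | h5
    · exact h3' h5.2.symm
    · exact h1' h5.1
  · rintro ⟨h4, h5, h6⟩ a b ha hb
    rw [ZFSet.mem_insert_iff, ZFSet.mem_pair] at ha hb
    rw [ZFSet.mem_pair, ZFSet.pair_inj, ZFSet.pair_inj]
    have r1 := ZFSet.rank_lt_of_mem h4
    have r2 := ZFSet.rank_lt_of_mem h5
    rcases ha with ha | ha | ha <;> rcases hb with hb | hb | hb <;>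
      (have ha' := nat_injective ha
       have hb' := nat_injective hb
       subst ha' hb'
       first
        | exact iff_of_true (Or.inl ⟨rfl, rfl⟩) h4
        | exact iff_of_true (Or.inr ⟨rfl, rfl⟩) h5
        | (refine iff_of_false ?_ h6
           rintro (⟨-, h7⟩ | ⟨h7, -⟩)
           · exact h3' h7.symm
           · exact h1' h7)
        | (refine iff_of_false ?_ (fun h8 => ?_)
           · rintro (⟨h7, h8⟩ | ⟨h7, h8⟩) <;>
              first
              | exact h1' h7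
              | exact h1' h7.symm
              | exact h2' h7
              | exact h2' h7.symm
              | exact h3' h7
              | exact h3' h7.symm
              | exact h1' h8
              | exact h1' h8.symm
              | exact h2' h8
              | exact h2' h8.symm
              | exact h3' h8
           · have r3 := ZFSet.rank_lt_of_mem h8
             first
              | exact lt_irrefl _ r3
              | exact lt_irrefl _ (r3.trans r1)
              | exact lt_irrefl _ (r3.trans r2)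
              | exact lt_irrefl _ (r3.trans (r1.trans r2))))

/-! ### Simple names -/

section

variable {M : Set ZFSet.{0}} {g : ℕ → ZFSet.{0}}

theorem isName_iff {P : Set ZFSet.{0}} {σ : ZFSet.{0}} :
    IsName P σ ↔ ∀ x ∈ σ, ∃ τ, ∃ p ∈ P, x = pair τ p ∧ IsName P τ := by
  constructor
  · intro hσ x hx
    cases hσ with
    | mk _ h h' =>
      obtain ⟨τ, p, hp, rfl⟩ := h x hx
      exact ⟨τ, p, hp, rfl, h' τ p hx⟩
  · intro h
    refine ⟨σ, fun x hx => ?_, fun τ p hx => ?_⟩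
    · obtain ⟨τ, p, hp, rfl, -⟩ := h x hx
      exact ⟨τ, p, hp, rfl⟩
    · obtain ⟨τ', p', -, h1, h2⟩ := h _ hx
      rwa [(ZFSet.pair_inj.1 h1).1]

theorem isName_empty {P : Set ZFSet.{0}} : IsName P ∅ :=
  isName_iff.2 fun _ hx => absurd hx (ZFSet.notMem_empty _)

theorem val_empty {G : Set ZFSet.{0}} : val G ∅ = ∅ := by
  ext y
  rw [mem_val]
  simp

/-- The canonical name of a set. -/
noncomputable def chk : ZFSet.{0} → ZFSet.{0} :=
  wfF (fun z => z) ZFSet.mem_wf fun _ h => im (fun u => pair (sn u) one) h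

theorem chk_eq (x : ZFSet.{0}) : chk x = im (fun u => pair (sn u) one) (gr chk x) := by
  rw [chk, wfF_eq]

theorem mem_chk {x z : ZFSet.{0}} : z ∈ chk x ↔ ∃ y ∈ x, z = pair (chk y) one := by
  rw [chk_eq, mem_im]
  constructor
  · rintro ⟨u, hu, rfl⟩
    obtain ⟨y, hy, rfl⟩ := mem_gr.1 hu
    exact ⟨y, hy, by rw [sn_pair]⟩
  · rintro ⟨y, hy, rfl⟩
    exact ⟨_, mem_gr.2 ⟨y, hy, rfl⟩, by rw [sn_pair]⟩

theorem isName_chk {x : ZFSet.{0}} : IsName {p | FCond M p} (chk x) := by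
  induction x using ZFSet.inductionOn with
  | _ x ih =>
  rw [isName_iff]
  intro z hz
  obtain ⟨y, hy, rfl⟩ := mem_chk.1 hz
  exact ⟨_, one, fcond_one, rfl, ih y hy⟩

theorem val_chk {x : ZFSet.{0}} : val (Gf M g) (chk x) = x := by
  induction x using ZFSet.inductionOn with
  | _ x ih =>
  ext y
  rw [mem_val]
  constructor
  · rintro ⟨τ, p, -, h, rfl⟩
    obtain ⟨z, hz, h1⟩ := mem_chk.1 h
    rw [(ZFSet.pair_inj.1 h1).1, ih z hz]
    exact hz
  · intro hy
    exact ⟨chk y, one, one_mem, mem_chk.2 ⟨y, hy, rfl⟩, (ih y hy).symm⟩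

/-- A name for the unordered pair. -/
noncomputable def up (a b : ZFSet.{0}) : ZFSet.{0} := {pair a one, pair b one}

theorem isName_up {a b : ZFSet.{0}} (ha : IsName {p | FCond M p} a)
    (hb : IsName {p | FCond M p} b) : IsName {p | FCond M p} (up a b) := by
  rw [isName_iff]
  intro z hz
  rcases ZFSet.mem_pair.1 hz with rfl | rfl
  · exact ⟨_, one, fcond_one, rfl, ha⟩
  · exact ⟨_, one, fcond_one, rfl, hb⟩

theorem val_up {a b : ZFSet.{0}} : val (Gf M g) (up a b) = {val (Gf M g) a, val (Gf M g) b} := by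
  ext y
  rw [mem_val, ZFSet.mem_pair]
  constructor
  · rintro ⟨τ, p, -, h, rfl⟩
    rcases ZFSet.mem_pair.1 h with h | h
    · exact Or.inl (by rw [(ZFSet.pair_inj.1 h).1])
    · exact Or.inr (by rw [(ZFSet.pair_inj.1 h).1])
  · rintro (rfl | rfl)
    · exact ⟨a, one, one_mem, ZFSet.mem_pair.2 (Or.inl rfl), rfl⟩
    · exact ⟨b, one, one_mem, ZFSet.mem_pair.2 (Or.inr rfl), rfl⟩

/-! ### Names for atomic types -/

/-- The name for the atomic type of a tuple; `V` is the set of the pairs `(a, v a)`. -/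
noncomputable def atn (V : ZFSet.{0}) : ZFSet.{0} :=
  im (fun u => pair (chk (pair (pair (fs (fs u)) (fs (sn u))) ∅)) (pat (sn (fs u)) (sn (sn u))))
    (ZFSet.sep (fun u => sn (fs u) ≠ sn (sn u)) (ZFSet.prod V V)) ∪
  im (fun u => pair (chk (pair (pair (fs (fs u)) (fs (sn u))) {∅})) one)
    (ZFSet.sep (fun u => sn (fs u) = sn (sn u)) (ZFSet.prod V V))

/-- The code of a tuple of natural numbers. -/
noncomputable def vs : (m : ℕ) → (Fin m → ℕ) → ZFSet.{0}
  | 0, _ => ∅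
  | m + 1, v => insert (pair (nat m) (nat (v 0))) (vs m (Fin.tail v))

theorem mem_vs {x : ZFSet.{0}} : {m : ℕ} → {v : Fin m → ℕ} →
    (x ∈ vs m v ↔ ∃ a : Fin m, x = pair (nat (m - 1 - a)) (nat (v a)))
  | 0, v => by
    rw [vs]
    constructor
    · intro h
      exact absurd h (ZFSet.notMem_empty _)
    · rintro ⟨a, -⟩
      exact a.elim0
  | m + 1, v => by
    rw [vs, ZFSet.mem_insert_iff, mem_vs]
    constructor
    · rintro (rfl | ⟨a, rfl⟩)
      · exact ⟨0, by simp⟩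
      · refine ⟨a.succ, ?_⟩
        have h : m + 1 - 1 - (a.succ : ℕ) = m - 1 - a := by
          rw [Fin.val_succ]
          omega
        rw [h]
        rfl
    · rintro ⟨a, rfl⟩
      refine Fin.cases ?_ (fun a => ?_) a
      · left
        simp
      · right
        refine ⟨a, ?_⟩
        have h : m + 1 - 1 - (a.succ : ℕ) = m - 1 - a := by
          rw [Fin.val_succ]
          omega
        rw [h]
        rfl

theorem lab_inj {m : ℕ} {a b : Fin m} (h : nat (m - 1 - a) = nat (m - 1 - b)) : a = b := by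
  have h1 := nat_injective h
  ext
  omega

theorem mem_atn {m : ℕ} {v : Fin m → ℕ} {x : ZFSet.{0}} : x ∈ atn (vs m v) ↔
    (∃ a b : Fin m, v a ≠ v b ∧ x = pair (chk (pair (pair (nat (m - 1 - a)) (nat (m - 1 - b))) ∅))
      (pat (nat (v a)) (nat (v b)))) ∨
    (∃ a b : Fin m, v a = v b ∧
      x = pair (chk (pair (pair (nat (m - 1 - a)) (nat (m - 1 - b))) {∅})) one) := by
  rw [atn, ZFSet.mem_union, mem_im, mem_im]
  refine or_congr ?_ ?_
  · constructor
    · rintro ⟨u, hu, rfl⟩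
      rw [ZFSet.mem_sep, ZFSet.mem_prod] at hu
      obtain ⟨⟨s, hs, t, ht, rfl⟩, hu⟩ := hu
      obtain ⟨a, rfl⟩ := mem_vs.1 hs
      obtain ⟨b, rfl⟩ := mem_vs.1 ht
      simp only [fs_pair, sn_pair] at hu ⊢
      exact ⟨a, b, fun h => hu (by rw [h]), rfl⟩
    · rintro ⟨a, b, hab, rfl⟩
      refine ⟨pair (pair (nat (m - 1 - a)) (nat (v a))) (pair (nat (m - 1 - b)) (nat (v b))),
        ?_, ?_⟩
      · rw [ZFSet.mem_sep, ZFSet.pair_mem_prod]
        simp only [fs_pair, sn_pair]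
        exact ⟨⟨mem_vs.2 ⟨a, rfl⟩, mem_vs.2 ⟨b, rfl⟩⟩, fun h => hab (nat_injective h)⟩
      · simp only [fs_pair, sn_pair]
  · constructor
    · rintro ⟨u, hu, rfl⟩
      rw [ZFSet.mem_sep, ZFSet.mem_prod] at hu
      obtain ⟨⟨s, hs, t, ht, rfl⟩, hu⟩ := hu
      obtain ⟨a, rfl⟩ := mem_vs.1 hs
      obtain ⟨b, rfl⟩ := mem_vs.1 ht
      simp only [fs_pair, sn_pair] at hu ⊢
      exact ⟨a, b, nat_injective hu, rfl⟩
    · rintro ⟨a, b, hab, rfl⟩
      refine ⟨pair (pair (nat (m - 1 - a)) (nat (v a))) (pair (nat (m - 1 - b)) (nat (v b))),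
        ?_, ?_⟩
      · rw [ZFSet.mem_sep, ZFSet.pair_mem_prod]
        simp only [fs_pair, sn_pair]
        exact ⟨⟨mem_vs.2 ⟨a, rfl⟩, mem_vs.2 ⟨b, rfl⟩⟩, by rw [hab]⟩
      · simp only [fs_pair, sn_pair]

theorem isName_atn {m : ℕ} {v : Fin m → ℕ} : IsName {p | FCond M p} (atn (vs m v)) := by
  rw [isName_iff]
  intro x hx
  rcases mem_atn.1 hx with ⟨a, b, hab, rfl⟩ | ⟨a, b, -, rfl⟩
  · exact ⟨_, _, fcond_pat hab, rfl, isName_chk⟩
  · exact ⟨_, _, fcond_one, rfl, isName_chk⟩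

theorem mem_val_atn {m : ℕ} {v : Fin m → ℕ} {y : ZFSet.{0}} :
    y ∈ val (Gf M g) (atn (vs m v)) ↔
    (∃ a b : Fin m, g (v a) ∈ g (v b) ∧ y = pair (pair (nat (m - 1 - a)) (nat (m - 1 - b))) ∅) ∨
    (∃ a b : Fin m, v a = v b ∧ y = pair (pair (nat (m - 1 - a)) (nat (m - 1 - b))) {∅}) := by
  rw [mem_val]
  constructor
  · rintro ⟨τ, p, hp, h, rfl⟩
    rcases mem_atn.1 h with ⟨a, b, hab, h1⟩ | ⟨a, b, hab, h1⟩
    · obtain ⟨rfl, rfl⟩ := ZFSet.pair_inj.1 h1
      exact Or.inl ⟨a, b, (pat_mem hab).1 hp, val_chk⟩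
    · obtain ⟨rfl, rfl⟩ := ZFSet.pair_inj.1 h1
      exact Or.inr ⟨a, b, hab, val_chk⟩
  · rintro (⟨a, b, hab, rfl⟩ | ⟨a, b, hab, rfl⟩)
    · have h : v a ≠ v b := by
        intro h
        rw [h] at hab
        exact ZFSet.mem_irrefl _ hab
      exact ⟨_, _, (pat_mem h).2 hab, mem_atn.2 (Or.inl ⟨a, b, h, rfl⟩), val_chk.symm⟩
    · exact ⟨_, _, one_mem, mem_atn.2 (Or.inr ⟨a, b, hab, rfl⟩), val_chk.symm⟩

theorem empty_ne_single : (∅ : ZFSet.{0}) ≠ {∅} := by
  intro h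
  have h1 : (∅ : ZFSet.{0}) ∈ ({∅} : ZFSet.{0}) := ZFSet.mem_singleton.2 rfl
  rw [← h] at h1
  exact ZFSet.notMem_empty _ h1

theorem val_atn_eq (hg : ∀ i j, g i = g j → i = j) {A B : Set ZFSet.{0}} {m : ℕ}
    {v w : Fin m → ℕ} :
    val (Gf M g) (atn (vs m v)) = val (Gf M g) (atn (vs m w)) ↔
      ty A 0 (fun i => g (v i)) = ty B 0 (fun i => g (w i)) := by
  have k1 : ∀ (v : Fin m → ℕ) (a b : Fin m),
      pair (pair (nat (m - 1 - a)) (nat (m - 1 - b))) ∅ ∈ val (Gf M g) (atn (vs m v)) ↔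
        g (v a) ∈ g (v b) := by
    intro v a b
    rw [mem_val_atn]
    constructor
    · rintro (⟨a', b', h, h1⟩ | ⟨a', b', h, h1⟩)
      · obtain ⟨h2, -⟩ := ZFSet.pair_inj.1 h1
        obtain ⟨h3, h4⟩ := ZFSet.pair_inj.1 h2
        rw [lab_inj h3, lab_inj h4]
        exact h
      · exact absurd (ZFSet.pair_inj.1 h1).2 empty_ne_single
    · intro h
      exact Or.inl ⟨a, b, h, rfl⟩
  have k2 : ∀ (v : Fin m → ℕ) (a b : Fin m),
      pair (pair (nat (m - 1 - a)) (nat (m - 1 - b))) {∅} ∈ val (Gf M g) (atn (vs m v)) ↔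
        g (v a) = g (v b) := by
    intro v a b
    rw [mem_val_atn]
    constructor
    · rintro (⟨a', b', h, h1⟩ | ⟨a', b', h, h1⟩)
      · exact absurd (ZFSet.pair_inj.1 h1).2.symm empty_ne_single
      · obtain ⟨h2, -⟩ := ZFSet.pair_inj.1 h1
        obtain ⟨h3, h4⟩ := ZFSet.pair_inj.1 h2
        rw [lab_inj h3, lab_inj h4, h]
    · intro h
      exact Or.inr ⟨a, b, hg _ _ h, rfl⟩
  rw [ty_zero]
  constructor
  · intro h
    exact ⟨fun i j => by rw [← k1, h, k1], fun i j => by rw [← k2, h, k2]⟩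
  · rintro ⟨h1, h2⟩
    ext y
    rw [mem_val_atn, mem_val_atn]
    refine or_congr ?_ ?_
    · exact exists_congr fun a => exists_congr fun b => and_congr (h1 a b) Iff.rfl
    · refine exists_congr fun a => exists_congr fun b => and_congr ?_ Iff.rfl
      exact ⟨fun h => hg _ _ ((h2 a b).1 (by rw [h])), fun h => hg _ _ ((h2 a b).2 (by rw [h]))⟩

end

end Q207.CF
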