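import Pool.Agent.Q207.CF.Rec

/-!
# The names are elements of the model
-/

set_option autoImplicit false

namespace Q207.CF

open ZFSet (pair)
open Pool.Agent.W868 (Fml Sat IsZF Dfn DfnF nat fs sn im sc)

section

variable {M : Set ZFSet.{0}} (hM : IsZF M) {n : ℕ} {F G H K L : (Fin n → ZFSet.{0}) → ZFSet.{0}}

include hM

theorem one_mem_M : one ∈ M :=
  hM.pair_mem hM.empty_mem (hM.pair_mem hM.empty_mem hM.empty_mem)

theorem pat' (hF : DfnF M M F) (hG : DfnF M M G) : DfnF M M fun v => pat (F v) (G v) := by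
  have hB := hM.base
  exact hB.pair' (hB.upair' hF hG) (hB.pair' (hB.single' (hB.pair' hF hG))
    (DfnF.const hM.empty_mem))

theorem pat3' (hF : DfnF M M F) (hG : DfnF M M G) (hH : DfnF M M H) :
    DfnF M M fun v => pat3 (F v) (G v) (H v) := by
  have hB := hM.base
  exact hB.pair' (hB.insert' hF (hB.upair' hG hH)) (hB.pair'
    (hB.upair' (hB.pair' hF hG) (hB.pair' hG hH)) (DfnF.const hM.empty_mem))

theorem up' (hF : DfnF M M F) (hG : DfnF M M G) : DfnF M M fun v => up (F v) (G v) := by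
  have hB := hM.base
  have h1 := one_mem_M hM
  exact hB.upair' (hB.pair' hF (DfnF.const h1)) (hB.pair' hG (DfnF.const h1))

theorem chk' (hF : DfnF M M F) : DfnF M M fun v => chk (F v) := by
  have hB := hM.base
  refine DfnF.comp1 (f := chk) ?_ hF
  refine hM.memrec (G := fun _ h => im (fun u => pair (sn u) one) h) ?_ chk_eq
  exact hM.im' (h := fun u _ => pair (sn u) one) (DfnF.proj 1)
    (hB.pair' (hM.sn' (DfnF.proj 0)) (DfnF.const (one_mem_M hM)))

theorem atn' (hF : DfnF M M F) : DfnF M M fun v => atn (F v) := by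
  have hB := hM.base
  have h0 := hM.empty_mem
  have h1 : ({∅} : ZFSet.{0}) ∈ M := hM.single_mem h0
  have hp := hM.prod' hF hF
  refine hB.union' ?_ ?_
  · refine hM.im' (h := fun u _ => pair (chk (pair (pair (fs (fs u)) (fs (sn u))) ∅))
      (pat (sn (fs u)) (sn (sn u)))) ?_ ?_
    · refine hM.sep' (Q := fun u _ => sn (fs u) ≠ sn (sn u)) hp ?_
      exact (Dfn.eq (hM.sn' (hM.fs' (DfnF.proj 0))) (hM.sn' (hM.sn' (DfnF.proj 0)))).not
    · exact hB.pair' (chk' hM (hB.pair' (hB.pair' (hM.fs' (hM.fs' (DfnF.proj 0)))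
        (hM.fs' (hM.sn' (DfnF.proj 0)))) (DfnF.const h0)))
        (pat' hM (hM.sn' (hM.fs' (DfnF.proj 0))) (hM.sn' (hM.sn' (DfnF.proj 0))))
  · refine hM.im' (h := fun u _ => pair (chk (pair (pair (fs (fs u)) (fs (sn u))) {∅})) one) ?_ ?_
    · refine hM.sep' (Q := fun u _ => sn (fs u) = sn (sn u)) hp ?_
      exact Dfn.eq (hM.sn' (hM.fs' (DfnF.proj 0))) (hM.sn' (hM.sn' (DfnF.proj 0)))
    · exact hB.pair' (chk' hM (hB.pair' (hB.pair' (hM.fs' (hM.fs' (DfnF.proj 0)))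
        (hM.fs' (hM.sn' (DfnF.proj 0)))) (DfnF.const h1))) (DfnF.const (one_mem_M hM))

theorem cod' (hF : DfnF M M F) (hG : DfnF M M G) (hH : DfnF M M H) (hK : DfnF M M K)
    (hL : DfnF M M L) : DfnF M M fun v => cod (F v) (G v) (H v) (K v) (L v) := by
  have hB := hM.base
  exact hB.pair' hF (hB.pair' hG (hB.pair' hH (hB.pair' hK hL)))

theorem zc' (hF : DfnF M M F) : DfnF M M fun v => zc (F v) := hM.fs' (hM.sn' hF)

theorem zm' (hF : DfnF M M F) : DfnF M M fun v => zm (F v) := hM.fs' (hM.sn' (hM.sn' hF))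

theorem zj' (hF : DfnF M M F) : DfnF M M fun v => zj (F v) :=
  hM.fs' (hM.sn' (hM.sn' (hM.sn' hF)))

theorem zV' (hF : DfnF M M F) : DfnF M M fun v => zV (F v) :=
  hM.sn' (hM.sn' (hM.sn' (hM.sn' hF)))

theorem sc' (hF : DfnF M M F) : DfnF M M fun v => sc (F v) := hM.base.insert' hF hF

theorem dfn_pos (hF : DfnF M M F) : Dfn M M fun v => zp (F v) :=
  (Dfn.mem (hM.fs' hF) (DfnF.const hM.infinity)).and
    (Dfn.eq (hM.fs' hF) (DfnF.const hM.empty_mem)).not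

theorem dfn_prd : DfnF M M fun w : Fin 1 → ZFSet.{0} => prd (w 0) := by
  have hB := hM.base
  refine DfnF.ite (dfn_pos hM (F := fun w : Fin 1 → ZFSet.{0} => w 0) (DfnF.proj 0)) ?_
    (DfnF.const hM.empty_mem)
  refine hM.im' (h := fun j v => cod (ZFSet.sUnion (fs (v 0))) (zc (v 0)) (sc (zm (v 0))) j
    (insert (pair (zm (v 0)) j) (zV (v 0)))) (DfnF.const hM.infinity) ?_
  exact cod' hM (hB.sUnion' (hM.fs' (DfnF.proj 1))) (zc' hM (DfnF.proj 1))
    (sc' hM (zm' hM (DfnF.proj 1))) (DfnF.proj 0)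
    (hB.insert' (hB.pair' (zm' hM (DfnF.proj 1)) (DfnF.proj 0)) (zV' hM (DfnF.proj 1)))

theorem cnd' (hF : DfnF M M F) (hG : DfnF M M G) : DfnF M M fun v => cnd (F v) (G v) :=
  DfnF.ite (Dfn.eq hG (DfnF.const hM.infinity)) (DfnF.const (one_mem_M hM)) (pat' hM hF hG)

theorem dfn_stp : DfnF M M fun w : Fin 2 → ZFSet.{0} => stp (w 0) (w 1) := by
  have hB := hM.base
  refine DfnF.ite (dfn_pos hM (F := fun w : Fin 2 → ZFSet.{0} => w 0) (DfnF.proj 0)) ?_
    (atn' hM (zV' hM (DfnF.proj 0)))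
  refine hM.im' (h := fun p v => pair (sn p) (cnd (zj (fs p)) (zc (v 0)))) ?_ ?_
  · refine hM.sep' (Q := fun p v => zj (fs p) ≠ zc (v 0)) (DfnF.proj 1) ?_
    exact (Dfn.eq (zj' hM (hM.fs' (DfnF.proj 0))) (zc' hM (DfnF.proj 1))).not
  · exact hB.pair' (hM.sn' (DfnF.proj 0))
      (cnd' hM (zj' hM (hM.fs' (DfnF.proj 0))) (zc' hM (DfnF.proj 1)))

theorem Xn' (hF : DfnF M M F) : DfnF M M fun v => Xn (F v) :=
  DfnF.comp1 (f := Xn) (hM.wfrec wf_prd (dfn_prd hM) (dfn_stp hM) Xn_eq) hF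

theorem idn' (hF : DfnF M M F) : DfnF M M fun v => im (fun i => pair i i) (F v) :=
  hM.im' (h := fun i _ => pair i i) hF (hM.base.pair' (DfnF.proj 0) (DfnF.proj 0))

theorem Wn' (hF : DfnF M M F) (hG : DfnF M M G) : DfnF M M fun v => Wn (F v) (G v) := by
  have hB := hM.base
  have h := hB.insert' (hB.pair' hF hG) (idn' hM hF)
  exact up' hM (Xn' hM (cod' hM hF hF (sc' hM hF) hG h))
    (Xn' hM (cod' hM hF (DfnF.const hM.infinity) (sc' hM hF) hG h))

theorem Sn' (hF : DfnF M M F) : DfnF M M fun v => Sn (F v) := by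
  have hB := hM.base
  have h0 : ∀ {m : ℕ}, DfnF M M fun _ : Fin m → ZFSet.{0} => (∅ : ZFSet.{0}) :=
    DfnF.const hM.empty_mem
  refine hB.union' (hB.union' ?_ ?_) ?_
  · refine hM.im' (h := fun j v => pair (Wn (F v) j) (pat j (F v))) ?_ ?_
    · exact hM.sep' (Q := fun j v => j ≠ F v) (DfnF.const hM.infinity)
        (Dfn.eq (DfnF.proj 0) hF.tail).not
    · exact hB.pair' (Wn' hM hF.tail (DfnF.proj 0)) (pat' hM (DfnF.proj 0) hF.tail)
  · refine hM.im' (h := fun i v => pair (up {pair ∅ (pat i (F v))} (up ∅ ∅)) one) hF ?_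
    exact hB.pair' (up' hM (hB.single' (hB.pair' h0 (pat' hM (DfnF.proj 0) hF.tail)))
      (up' hM h0 h0)) (DfnF.const (one_mem_M hM))
  · refine hM.im' (h := fun u v => pair (up ∅ (up ∅ ∅)) (pat3 (fs u) (sn u) (F v))) ?_ ?_
    · refine hM.sep' (Q := fun u v => fs u ≠ sn u ∧ fs u ≠ F v ∧ sn u ≠ F v)
        (hM.prod' (DfnF.const hM.infinity) (DfnF.const hM.infinity)) ?_
      exact (Dfn.eq (hM.fs' (DfnF.proj 0)) (hM.sn' (DfnF.proj 0))).not.and
        ((Dfn.eq (hM.fs' (DfnF.proj 0)) hF.tail).not.and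
          (Dfn.eq (hM.sn' (DfnF.proj 0)) hF.tail).not)
    · exact hB.pair' (up' hM h0 (up' hM h0 h0))
        (pat3' hM (hM.fs' (DfnF.proj 0)) (hM.sn' (DfnF.proj 0)) hF.tail)

theorem Sg_mem : Sg ∈ M :=
  hM.im_mem hM.infinity (hM.base.pair' (Sn' hM (DfnF.proj 0)) (DfnF.const (one_mem_M hM)))

end

end Q207.CF
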