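import Pool.Agent.W868.Im

/-!
# Class forcing over transitive models: names, evaluation, generic filters, truth lemma

Everything takes place inside the type `ZFSet.{0}` of all sets. Formulas of the language of set
theory (`Fml`), their truth in a class (`Sat`) and transitive models of ZF and ZFC (`IsZF`,
`IsZFC`) are those of `Pool.Agent.W868.Defs`.
-/

set_option autoImplicit false

namespace Q207.CF

open ZFSet (pair)
open Pool.Agent.W868 (Fml Sat IsZF IsZFC)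

/-- `σ` is a `P`-name: a set of pairs `(τ, p)`, where `τ` is a `P`-name and `p ∈ P`. -/
inductive IsName (P : Set ZFSet.{0}) : ZFSet.{0} → Prop
  | mk (σ : ZFSet.{0}) (h : ∀ x ∈ σ, ∃ τ, ∃ p ∈ P, x = pair τ p)
      (h' : ∀ τ p, pair τ p ∈ σ → IsName P τ) : IsName P σ

theorem rank_fst_lt {τ p σ : ZFSet.{0}} (h : pair τ p ∈ σ) : τ.rank < σ.rank := by
  have h1 : ({τ} : ZFSet.{0}) ∈ pair τ p := by simp [pair]
  have h2 : τ ∈ ({τ} : ZFSet.{0}) := ZFSet.mem_singleton.2 rfl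
  exact (ZFSet.rank_lt_of_mem h2).trans ((ZFSet.rank_lt_of_mem h1).trans (ZFSet.rank_lt_of_mem h))

theorem wf_name : WellFounded fun τ σ : ZFSet.{0} => ∃ p, pair τ p ∈ σ :=
  Subrelation.wf (r := InvImage (· < ·) ZFSet.rank) (fun ⟨_, h⟩ => rank_fst_lt h)
    (InvImage.wf _ Ordinal.lt_wf)

/-- The evaluation `σ^G = {τ^G : (τ, p) ∈ σ for some p ∈ G}`, see `mem_val`. -/
noncomputable def val (G : Set ZFSet.{0}) : ZFSet.{0} → ZFSet.{0} :=
  wf_name.fix fun σ ih => ZFSet.range fun t : {t : {x : ZFSet.{0} // x ∈ σ} //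
    ∃ p ∈ G, t.1 = pair (Pool.Agent.W868.fs t.1) p} =>
      ih (Pool.Agent.W868.fs t.1.1) (by
        obtain ⟨⟨x, hx⟩, p, -, h⟩ := t
        exact ⟨p, by simpa only [← h] using hx⟩)

theorem mem_val {G : Set ZFSet.{0}} {σ y : ZFSet.{0}} :
    y ∈ val G σ ↔ ∃ τ, ∃ p ∈ G, pair τ p ∈ σ ∧ y = val G τ := by
  rw [val, WellFounded.fix_eq, ZFSet.mem_range]
  constructor
  · rintro ⟨⟨⟨x, hx⟩, p, hp, h⟩, rfl⟩
    exact ⟨_, p, hp, by simpa only [← h] using hx, rfl⟩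
  · rintro ⟨τ, p, hp, h, rfl⟩
    refine ⟨⟨⟨pair τ p, h⟩, p, hp, ?_⟩, ?_⟩
    · simp
    · change val G (Pool.Agent.W868.fs (pair τ p)) = val G τ
      rw [Pool.Agent.W868.fs_pair]

/-- The generic extension `M[G]` for the class `P` of conditions. -/
def Ext (M P G : Set ZFSet.{0}) : Set ZFSet.{0} := {y | ∃ σ ∈ M, IsName P σ ∧ y = val G σ}

/-- `G` is a filter on the class `P` with the order `le`. -/
structure IsFilter (P : Set ZFSet.{0}) (le : ZFSet.{0} → ZFSet.{0} → Prop)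
    (G : Set ZFSet.{0}) : Prop where
  sub : G ⊆ P
  nonempty : G.Nonempty
  up : ∀ p ∈ G, ∀ q ∈ P, le p q → q ∈ G
  dir : ∀ p ∈ G, ∀ q ∈ G, ∃ r ∈ G, le r p ∧ le r q

/-- `D` is a dense subset of the class `P` with the order `le`. -/
def IsDense (P : Set ZFSet.{0}) (le : ZFSet.{0} → ZFSet.{0} → Prop) (D : Set ZFSet.{0}) : Prop :=
  D ⊆ P ∧ ∀ p ∈ P, ∃ q ∈ D, le q p

/-- `D` is definable over `(M, ∈)` by a formula with parameters from `S`. -/
def IsDefinable (S M D : Set ZFSet.{0}) : Prop :=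
  ∃ φ : Fml ZFSet.{0} 1, φ.Over S ∧ D = {x | x ∈ M ∧ Sat M id φ ![x]}

/-- The filter `G` meets all dense subsets of `P` that are definable over `M` with parameters
from `S`. -/
def IsGeneric (S M P : Set ZFSet.{0}) (le : ZFSet.{0} → ZFSet.{0} → Prop)
    (G : Set ZFSet.{0}) : Prop :=
  IsFilter P le G ∧ ∀ D, IsDefinable S M D → IsDense P le D → ∃ p ∈ D, p ∈ G

/-- The condition `p` forces the formula `φ` about the names `σ`: it holds in `M[G]` for all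
generic `G` that contain `p`. -/
def Forces (S M P : Set ZFSet.{0}) (le : ZFSet.{0} → ZFSet.{0} → Prop) {n : ℕ}
    (p : ZFSet.{0}) (φ : Fml Empty n) (σ : Fin n → ZFSet.{0}) : Prop :=
  ∀ G, IsGeneric S M P le G → p ∈ G → Sat (Ext M P G) Empty.elim φ fun i => val G (σ i)

/-- The truth lemma, for all formulas: whenever `G` is generic and `φ(σ)` holds in `M[G]`, it is
forced by some `p ∈ G`. -/
def TruthLemma (S M P : Set ZFSet.{0}) (le : ZFSet.{0} → ZFSet.{0} → Prop) : Prop :=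
  ∀ (n : ℕ) (φ : Fml Empty n) (σ : Fin n → ZFSet.{0}), (∀ i, σ i ∈ M ∧ IsName P (σ i)) →
    ∀ G, IsGeneric S M P le G → (Sat (Ext M P G) Empty.elim φ fun i => val G (σ i)) →
      ∃ p ∈ G, Forces S M P le p φ σ

/-- The forcing `𝔽^M` of Friedman: `p` is a triple `(d, e, f)` (coded as `(d, (e, f))`) such
that `d` is a finite subset of `ω`, `e` is an acyclic binary relation on `d`, and `f` is an
injective function to `M` whose domain is either empty or `d`; if it is `d`, then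
`i e j ↔ f i ∈ f j` for `i, j ∈ d`. -/
def FCond (M : Set ZFSet.{0}) (p : ZFSet.{0}) : Prop :=
  ∃ d e f : ZFSet.{0}, p = pair d (pair e f) ∧
    (d ⊆ ZFSet.omega ∧ {i | i ∈ d}.Finite) ∧
    ((∀ x ∈ e, ∃ i ∈ d, ∃ j ∈ d, x = pair i j) ∧
      ∀ i, ¬ Relation.TransGen (fun a b => pair a b ∈ e) i i) ∧
    ((∀ x ∈ f, ∃ i ∈ d, ∃ y ∈ M, x = pair i y) ∧
      (∀ i y z, pair i y ∈ f → pair i z ∈ f → y = z) ∧
      (∀ i j y, pair i y ∈ f → pair j y ∈ f → i = j) ∧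
      (f = ∅ ∨ ∀ i ∈ d, ∃ y, pair i y ∈ f)) ∧
    ((∀ i ∈ d, ∃ y, pair i y ∈ f) → ∀ i ∈ d, ∀ j ∈ d, ∀ y z, pair i y ∈ f → pair j z ∈ f →
      (pair i j ∈ e ↔ y ∈ z))

/-- The order of `𝔽^M`: `(d, e, f) ≤ (d', e', f')` if `d' ⊆ d`, `e ∩ (d' × d') = e'` and
`f' ⊆ f`. -/
def FLe (p q : ZFSet.{0}) : Prop :=
  ∃ d e f d' e' f' : ZFSet.{0}, p = pair d (pair e f) ∧ q = pair d' (pair e' f') ∧
    d' ⊆ d ∧ (∀ i ∈ d', ∀ j ∈ d', (pair i j ∈ e ↔ pair i j ∈ e')) ∧ f' ⊆ f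

end Q207.CF
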