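import Pool.Agent.Q207.CF.Gen

/-!
# The filter given by an enumeration of the model
-/

set_option autoImplicit false

namespace Q207.CF

open ZFSet (pair)
open Pool.Agent.W868 (Fml Sat IsZF nat nat_injective mem_omega_iff countable_fml)

/-- The filter given by the enumeration `g`. -/
def Gf (M : Set ZFSet.{0}) (g : ℕ → ZFSet.{0}) : Set ZFSet.{0} :=
  {p | FCond M p ∧ ∃ n, FLe (cd g n) p}

/-- The enumeration `g` is generic: it enumerates `M` without repetitions, and it meets all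
definable dense sets. -/
structure Gn (M : Set ZFSet.{0}) (g : ℕ → ZFSet.{0}) : Prop where
  mem : ∀ i, g i ∈ M
  inj : ∀ i j, g i = g j → i = j
  surj : ∀ b ∈ M, ∃ i, g i = b
  gen : ∀ D, IsDefinable M M D → IsDense {p | FCond M p} FLe D → ∃ n, ∃ q ∈ D, FLe (cd g n) q

theorem Gn.cd {M : Set ZFSet.{0}} {g : ℕ → ZFSet.{0}} (hg : Gn M g) (n : ℕ) : cd g n ∈ Gf M g := by
  have h := fcond_cd (n := n) (fun i _ => hg.mem i) (fun i _ j _ => hg.inj i j)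
  exact ⟨h, n, fle_refl h⟩

theorem Gn.generic {M : Set ZFSet.{0}} {g : ℕ → ZFSet.{0}} (hg : Gn M g) {S : Set ZFSet.{0}}
    (hS : S ⊆ M) : IsGeneric S M {p | FCond M p} FLe (Gf M g) := by
  refine ⟨⟨fun p hp => hp.1, ⟨_, hg.cd 0⟩, fun p hp q hq hpq => ⟨hq, ?_⟩, fun p hp q hq => ?_⟩, ?_⟩
  · obtain ⟨n, hn⟩ := hp.2
    exact ⟨n, fle_trans hn hpq⟩
  · obtain ⟨m, hm⟩ := hp.2
    obtain ⟨n, hn⟩ := hq.2
    refine ⟨_, hg.cd (max m n), ?_, ?_⟩
    · exact fle_trans (fle_cd (le_max_left m n) fun _ _ => rfl) hm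
    · exact fle_trans (fle_cd (le_max_right m n) fun _ _ => rfl) hn
  · intro D hD hD'
    have hD2 : IsDefinable M M D := by
      obtain ⟨φ, h1, h2⟩ := hD
      exact ⟨φ, h1.mono hS, h2⟩
    obtain ⟨n, q, hq, h⟩ := hg.gen D hD2 hD'
    exact ⟨q, hq, hD'.1 hq, n, h⟩

/-- Existence of generic enumerations, for a class of states that is closed under extensions that
meet dense sets. -/
theorem exists_gn {M : Set ZFSet.{0}} (hM : IsZF M) (hc : M.Countable)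
    {Q : ℕ → (ℕ → ZFSet.{0}) → Prop}
    (hQ : ∀ n f g, (∀ i < n, g i = f i) → Q n f → Q n g)
    (hQM : ∀ n f, Q n f → (∀ i < n, f i ∈ M) ∧ ∀ i < n, ∀ j < n, f i = f j → i = j)
    (hQD : ∀ D, IsDefinable M M D → IsDense {p | FCond M p} FLe D → ∀ n f, Q n f →
      ∃ m g, n ≤ m ∧ (∀ i < n, g i = f i) ∧ Q m g ∧ ∃ q ∈ D, FLe (cd g m) q)
    (hQb : ∀ b ∈ M, ∀ n f, Q n f →
      ∃ m g, n < m ∧ (∀ i < n, g i = f i) ∧ Q m g ∧ ∃ i < m, g i = b)
    {n : ℕ} {f : ℕ → ZFSet.{0}} (h : Q n f) :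
    ∃ g : ℕ → ZFSet.{0}, (∀ i < n, g i = f i) ∧ Gn M g ∧ ∀ t, ∃ m, t < m ∧ Q m g := by
  obtain ⟨b, hb⟩ := hc.exists_eq_range ⟨∅, hM.empty_mem⟩
  have hcf := countable_fml hc 1
  have hne : {φ : Fml ZFSet.{0} 1 | φ.Over M}.Nonempty :=
    ⟨.eq (Sum.inl 0) (Sum.inl 0), Pool.Agent.W868.TOver.inl _, Pool.Agent.W868.TOver.inl _⟩
  obtain ⟨F, hF⟩ := hcf.exists_eq_range hne
  let D : ℕ → Set ZFSet.{0} := fun t => {x | x ∈ M ∧ Sat M id (F t) ![x]}
  let T : ℕ → ℕ → (ℕ → ZFSet.{0}) → Prop := fun t m g => (∃ i < m, g i = b t) ∧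
    (IsDense {p | FCond M p} FLe (D t) → ∃ k ≤ m, ∃ q ∈ D t, FLe (cd g k) q)
  have hT1 : ∀ t m f g, (∀ i < m, g i = f i) → T t m f → T t m g := by
    rintro t m f g hfg ⟨⟨i, hi, h3⟩, h4⟩
    refine ⟨⟨i, hi, by rw [hfg i hi, h3]⟩, fun hd => ?_⟩
    obtain ⟨k, hk, q, hq, h5⟩ := h4 hd
    exact ⟨k, hk, q, hq, fle_trans (fle_cd le_rfl fun i hi => hfg i (by omega)) h5⟩
  have hT2 : ∀ t m f, Q m f → ∃ m' g, m < m' ∧ (∀ i < m, g i = f i) ∧ Q m' g ∧ T t m' g := by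
    intro t m f hf
    have hbt : b t ∈ M := by
      rw [hb]
      exact ⟨t, rfl⟩
    have hDt : IsDefinable M M (D t) := by
      have h3 : F t ∈ {φ : Fml ZFSet.{0} 1 | φ.Over M} := by
        rw [hF]
        exact ⟨t, rfl⟩
      exact ⟨F t, h3, rfl⟩
    obtain ⟨m1, g1, h3, h4, h5, h6⟩ := hQb (b t) hbt m f hf
    by_cases hd : IsDense {p | FCond M p} FLe (D t)
    · obtain ⟨m2, g2, h7, h8, h9, h10⟩ := hQD (D t) hDt hd m1 g1 h5
      refine ⟨m2, g2, by omega, fun i hi => by rw [h8 i (by omega), h4 i hi], h9, ?_,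
        fun _ => ⟨m2, le_rfl, h10⟩⟩
      obtain ⟨i, hi, h11⟩ := h6
      exact ⟨i, by omega, by rw [h8 i hi, h11]⟩
    · exact ⟨m1, g1, h3, h4, h5, h6, fun h => absurd h hd⟩
  obtain ⟨g, h1, h2⟩ := exists_limit (Q := Q) (T := T) hQ hT1 hT2 h
  refine ⟨g, h1, ⟨fun i => ?_, fun i j hij => ?_, fun x hx => ?_, ?_⟩, fun t => ?_⟩
  · obtain ⟨m, -, hm, h3, -⟩ := h2 i
    exact (hQM m g h3).1 i hm
  · obtain ⟨m, -, hm, h3, -⟩ := h2 (max i j)
    exact (hQM m g h3).2 i (by omega) j (by omega) hij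
  · rw [hb] at hx
    obtain ⟨t, rfl⟩ := hx
    obtain ⟨m, -, -, -, ⟨i, -, h3⟩, -⟩ := h2 t
    exact ⟨i, h3⟩
  · rintro D' ⟨φ, hφ, rfl⟩ hd
    have h3 : φ ∈ {φ : Fml ZFSet.{0} 1 | φ.Over M} := hφ
    rw [hF] at h3
    obtain ⟨t, rfl⟩ := h3
    obtain ⟨m, -, -, -, -, h4⟩ := h2 t
    obtain ⟨k, -, q, hq, h5⟩ := h4 hd
    exact ⟨k, q, hq, h5⟩
  · obtain ⟨m, -, hm, h3, -⟩ := h2 t
    exact ⟨m, hm, h3⟩

/-- There is a generic enumeration without events. -/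
theorem exists_gn_free {M : Set ZFSet.{0}} (hM : IsZF M) (hc : M.Countable) (hR : Refl M) :
    ∃ g, Gn M g ∧ ∀ k, ¬ Ev M g k := by
  have h0 : (∅ : ZFSet.{0}) ∈ M := hM.empty_mem
  have h1 : ({∅} : ZFSet.{0}) ∈ M := hM.single_mem h0
  have hE : EF M 1 fun _ => {{∅}} := by
    refine ⟨le_rfl, fun i _ => hM.single_mem h1, fun i hi j hj _ => by omega, fun k hk h => ?_⟩
    have h2 := h.2.1 {∅} (ZFSet.mem_singleton.2 rfl) ∅ (ZFSet.mem_singleton.2 rfl)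
    have h3 := ZFSet.mem_singleton.1 h2
    have h4 : (∅ : ZFSet.{0}) ∈ ({∅} : ZFSet.{0}) := ZFSet.mem_singleton.2 rfl
    rw [← h3] at h4
    exact ZFSet.notMem_empty _ h4
  obtain ⟨g, -, h2, h3⟩ := exists_gn hM hc (Q := EF M) (fun n f g h hf => hf.congr h)
    (fun n f hf => ⟨hf.mem, hf.inj⟩) (fun D hD hd n f hf => hf.dense hM hR hD hd)
    (fun b hb n f hf => by
      obtain ⟨m, g, h1, h1', h2, h3⟩ := hf.long hM (n + 1)
      obtain ⟨m', g', h4, h5, h6, h7⟩ := h3.add hM hb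
      exact ⟨m', g', by omega, fun i hi => by rw [h5 i (by omega), h2 i hi], h6, h7⟩) hE
  refine ⟨g, h2, fun k => ?_⟩
  obtain ⟨m, hm, h4⟩ := h3 k
  exact h4.ev k hm

/-- All states can be extended to generic enumerations. -/
theorem exists_gn_state {M : Set ZFSet.{0}} (hM : IsZF M) (hc : M.Countable) {n : ℕ}
    (hn : 1 ≤ n) {f : ℕ → ZFSet.{0}} (hf : ∀ i < n, f i ∈ M)
    (hf' : ∀ i < n, ∀ j < n, f i = f j → i = j) :
    ∃ g, Gn M g ∧ ∀ i < n, g i = f i := by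
  have hstep : ∀ n (f : ℕ → ZFSet.{0}), (1 ≤ n ∧ (∀ i < n, f i ∈ M) ∧
      ∀ i < n, ∀ j < n, f i = f j → i = j) → ∀ b ∈ M, (∀ i < n, f i ≠ b) →
      ∃ g : ℕ → ZFSet.{0}, (∀ i < n, g i = f i) ∧ g n = b ∧ (1 ≤ n + 1 ∧ (∀ i < n + 1, g i ∈ M) ∧
      ∀ i < n + 1, ∀ j < n + 1, g i = g j → i = j) := by
    rintro n f ⟨h1, h2, h3⟩ b hb h4
    have e1 : ∀ i < n, (fun i => if i < n then f i else b) i = f i := fun i hi => if_pos hi
    have e2 : (fun i => if i < n then f i else b) n = b := if_neg (lt_irrefl n)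
    refine ⟨fun i => if i < n then f i else b, e1, e2, by omega, fun i hi => ?_,
      fun i hi j hj hij => ?_⟩
    · rcases Nat.lt_succ_iff_lt_or_eq.1 hi with h | rfl
      · rw [e1 i h]
        exact h2 i h
      · rw [e2]
        exact hb
    · rcases Nat.lt_succ_iff_lt_or_eq.1 hi with h | rfl <;>
        rcases Nat.lt_succ_iff_lt_or_eq.1 hj with h' | rfl
      · rw [e1 i h, e1 j h'] at hij
        exact h3 i h j h' hij
      · rw [e2, e1 i h] at hij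
        exact absurd hij (h4 i h)
      · rw [e2, e1 j h'] at hij
        exact absurd hij.symm (h4 j h')
      · rfl
  let Q : ℕ → (ℕ → ZFSet.{0}) → Prop := fun n f => 1 ≤ n ∧ (∀ i < n, f i ∈ M) ∧
    ∀ i < n, ∀ j < n, f i = f j → i = j
  have hQ1 : ∀ n f g, (∀ i < n, g i = f i) → Q n f → Q n g := by
    rintro n f g h ⟨h1, h2, h3⟩
    exact ⟨h1, fun i hi => h i hi ▸ h2 i hi, fun i hi j hj => by
      rw [h i hi, h j hj]
      exact h3 i hi j hj⟩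
  have hQ2 : ∀ D, IsDefinable M M D → IsDense {p | FCond M p} FLe D → ∀ n f, Q n f →
      ∃ m g, n ≤ m ∧ (∀ i < n, g i = f i) ∧ Q m g ∧ ∃ q ∈ D, FLe (cd g m) q := by
    rintro D hD hd n f ⟨h1, h2, h3⟩
    obtain ⟨q, hq, hle⟩ := hd.2 (cd f n) (fcond_cd h2 h3)
    have hqM : q ∈ M := by
      obtain ⟨φ, -, rfl⟩ := hD
      exact hq.1
    have hqc : FCond M q := hd.1 hq
    have hqc0 := hqc
    obtain ⟨d, e, r, rfl, -⟩ := hqc
    obtain ⟨m, g, d1, d2, d3, d4, d5, -⟩ := fill hM hqc0 hqM h1 (fn_sub_of_fle hle)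
    exact ⟨m, g, d1, d2, ⟨by omega, d3, d4⟩, _, hq, d5⟩
  have hQ3 : ∀ b ∈ M, ∀ n f, Q n f →
      ∃ m g, n < m ∧ (∀ i < n, g i = f i) ∧ Q m g ∧ ∃ i < m, g i = b := by
    rintro b hb n f ⟨h1, h2, h3⟩
    have hw : ∀ n (f : ℕ → ZFSet.{0}), (∀ i < n, f i ∈ M) → ∀ i < n, f i ≠ {cd f n} := by
      intro n f _ i hi h
      have h4 := rank_cd (f := f) hi
      rw [h] at h4
      exact lt_irrefl _ (h4.trans (ZFSet.rank_lt_of_mem (ZFSet.mem_singleton.2 rfl)))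
    by_cases h : ∃ i < n, f i = b
    · obtain ⟨g, h4, h5, h6⟩ := hstep n f ⟨h1, h2, h3⟩ {cd f n} (hM.single_mem (cd_mem hM h2))
        (hw n f h2)
      obtain ⟨i, hi, h7⟩ := h
      exact ⟨n + 1, g, by omega, h4, h6, i, by omega, by rw [h4 i hi, h7]⟩
    · obtain ⟨g, h4, h5, h6⟩ := hstep n f ⟨h1, h2, h3⟩ b hb fun i hi h7 => h ⟨i, hi, h7⟩
      exact ⟨n + 1, g, by omega, h4, h6, n, by omega, h5⟩
  obtain ⟨g, h1, h2, -⟩ := exists_gn hM hc (Q := Q) hQ1 (fun n f hf => hf.2) hQ2 hQ3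
    (n := n) (f := f) ⟨hn, hf, hf'⟩
  exact ⟨g, h2, h1⟩

/-- Every condition in a generic filter allows an event. -/
theorem exists_gn_event {M : Set ZFSet.{0}} (hM : IsZF M) (hc : M.Countable) (hR : Refl M)
    {g : ℕ → ZFSet.{0}} (hg : Gn M g) {p : ZFSet.{0}} (hp : p ∈ Gf M g) :
    ∃ g', Gn M g' ∧ p ∈ Gf M g' ∧ ∃ k, Ev M g' k := by
  obtain ⟨hp1, n0, hn0⟩ := hp
  obtain ⟨N, h1, h2, h3, h4⟩ := hR (n0 + 1) (tp g (n0 + 1)) (tp_mem fun i _ => hg.mem i)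
  set n := n0 + 1 with hn
  have hin : ∀ i < n, g i ∈ N := by
    intro i hi
    obtain ⟨j, hj⟩ := exists_tp (f := g) hi
    exact hj ▸ h3 j
  have e1 : ∀ i < n, (fun i => if i < n then g i else N) i = g i := fun i hi => if_pos hi
  have e2 : (fun i => if i < n then g i else N) n = N := if_neg (lt_irrefl n)
  set f : ℕ → ZFSet.{0} := fun i => if i < n then g i else N
  obtain ⟨g', h5, h6⟩ := exists_gn_state hM hc (n := n + 1) (by omega) (f := f) (by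
    intro i hi
    rcases Nat.lt_succ_iff_lt_or_eq.1 hi with h | rfl
    · rw [e1 i h]
      exact hg.mem i
    · rw [e2]
      exact h1) (by
    intro i hi j hj hij
    rcases Nat.lt_succ_iff_lt_or_eq.1 hi with h | rfl <;>
      rcases Nat.lt_succ_iff_lt_or_eq.1 hj with h' | rfl
    · rw [e1 i h, e1 j h'] at hij
      exact hg.inj i j hij
    · rw [e2, e1 i h] at hij
      have := hin i h
      rw [hij] at this
      exact absurd this (ZFSet.mem_irrefl _)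
    · rw [e2, e1 j h'] at hij
      have := hin j h'
      rw [← hij] at this
      exact absurd this (ZFSet.mem_irrefl _)
    · rfl)
  have h7 : ∀ i < n, g' i = g i := fun i hi => by rw [h6 i (by omega), e1 i hi]
  have h8 : g' n = N := by rw [h6 n (by omega), e2]
  refine ⟨g', h5, ⟨hp1, n0, fle_trans (fle_cd le_rfl fun i hi => h7 i (by omega)) hn0⟩, n, ?_⟩
  unfold Ev
  rw [h8, tp_congr h7]
  exact ⟨fun i hi => h7 i hi ▸ hin i hi, h2, h4⟩

end Q207.CF
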