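import Pool.Agent.Q207.CF.Cond

/-!
# Generic enumerations of a model, with and without events
-/

set_option autoImplicit false

namespace Q207.CF

open ZFSet (pair)
open Pool.Agent.W868 (Fml Sat IsZF Dfn DfnF nat nat_injective mem_omega_iff TOver fs sn fs_pair
  sn_pair)

/-! ### Limits of sequences of states -/

theorem exists_limit {Q : ℕ → (ℕ → ZFSet.{0}) → Prop} {T : ℕ → ℕ → (ℕ → ZFSet.{0}) → Prop}
    (hQ : ∀ n f g, (∀ i < n, g i = f i) → Q n f → Q n g)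
    (hT : ∀ t n f g, (∀ i < n, g i = f i) → T t n f → T t n g)
    (hd : ∀ t n f, Q n f → ∃ m g, n < m ∧ (∀ i < n, g i = f i) ∧ Q m g ∧ T t m g)
    {n : ℕ} {f : ℕ → ZFSet.{0}} (h : Q n f) :
    ∃ g : ℕ → ZFSet.{0}, (∀ i < n, g i = f i) ∧ ∀ t, ∃ m, n ≤ m ∧ t < m ∧ Q m g ∧ T t m g := by
  choose! M1 g1 h1 h2 h3 h4 using hd
  let s : ℕ → {p : ℕ × (ℕ → ZFSet.{0}) // Q p.1 p.2} := fun k =>
    Nat.rec ⟨(n, f), h⟩ (fun t p => ⟨(M1 t p.1.1 p.1.2, g1 t p.1.1 p.1.2), h3 t _ _ p.2⟩) k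
  have hs0 : (s 0).1 = (n, f) := rfl
  have hs : ∀ t, (s (t + 1)).1 = (M1 t (s t).1.1 (s t).1.2, g1 t (s t).1.1 (s t).1.2) :=
    fun t => rfl
  have hs1 : ∀ t, (s t).1.1 < (s (t + 1)).1.1 := fun t => by
    rw [hs]
    exact h1 t _ _ (s t).2
  have hs2 : ∀ t, ∀ i < (s t).1.1, (s (t + 1)).1.2 i = (s t).1.2 i := fun t i hi => by
    rw [hs]
    exact h2 t _ _ (s t).2 i hi
  have hmono : ∀ t k, (s t).1.1 + k ≤ (s (t + k)).1.1 := by
    intro t k
    induction k with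
    | zero => exact le_refl _
    | succ k ih =>
      have := hs1 (t + k)
      rw [← add_assoc t k 1]
      omega
  have hext : ∀ t k, ∀ i < (s t).1.1, (s (t + k)).1.2 i = (s t).1.2 i := by
    intro t k
    induction k with
    | zero => exact fun i _ => rfl
    | succ k ih =>
      intro i hi
      have h5 := hmono t k
      rw [← add_assoc t k 1, hs2 (t + k) i (by omega)]
      exact ih i hi
  have hlen : ∀ t, n + t ≤ (s t).1.1 := by
    intro t
    have h5 := hmono 0 t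
    rw [Nat.zero_add] at h5
    have h6 : (s 0).1.1 = n := by rw [hs0]
    omega
  let g : ℕ → ZFSet.{0} := fun i => (s (i + 1)).1.2 i
  have hg : ∀ t, ∀ i < (s t).1.1, g i = (s t).1.2 i := by
    intro t i hi
    have h5 := hlen (i + 1)
    rcases le_total t (i + 1) with h6 | h6
    · obtain ⟨k, hk⟩ := Nat.exists_eq_add_of_le h6
      have h7 := hext t k i hi
      rw [← hk] at h7
      exact h7
    · obtain ⟨k, hk⟩ := Nat.exists_eq_add_of_le h6
      have h7 := hext (i + 1) k i (by omega)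
      rw [← hk] at h7
      exact h7.symm
  refine ⟨g, fun i hi => ?_, fun t => ?_⟩
  · have h5 := hg 0 i (by rw [hs0]; exact hi)
    rw [h5, hs0]
  · refine ⟨(s (t + 1)).1.1, ?_, ?_, ?_, ?_⟩
    · have := hlen (t + 1)
      omega
    · have := hlen (t + 1)
      omega
    · exact hQ _ _ _ (hg (t + 1)) (s (t + 1)).2
    · refine hT t _ _ _ (hg (t + 1)) ?_
      have h5 := h4 t _ _ (s t).2
      rw [hs]
      exact h5

/-! ### Events -/

/-- The tuple `f (k - 1), ..., f 0`. -/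
def tp (f : ℕ → ZFSet.{0}) : (k : ℕ) → Fin k → ZFSet.{0}
  | 0 => Fin.elim0
  | k + 1 => Fin.cons (f k) (tp f k)

theorem tp_congr {f g : ℕ → ZFSet.{0}} : {k : ℕ} → (∀ i < k, f i = g i) → tp f k = tp g k
  | 0, _ => rfl
  | k + 1, h => by
    rw [tp, tp, h k (by omega), tp_congr fun i hi => h i (by omega)]

theorem exists_tp {f : ℕ → ZFSet.{0}} : {k i : ℕ} → i < k → ∃ j, tp f k j = f i
  | 0, _, h => absurd h (by omega)
  | k + 1, i, h => by
    rcases Nat.lt_succ_iff_lt_or_eq.1 h with h | rfl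
    · obtain ⟨j, hj⟩ := exists_tp (f := f) h
      exact ⟨j.succ, by simpa [tp] using hj⟩
    · exact ⟨0, by simp [tp]⟩

theorem tp_mem {f : ℕ → ZFSet.{0}} {M : Set ZFSet.{0}} : {k : ℕ} → (∀ i < k, f i ∈ M) →
    ∀ j, tp f k j ∈ M
  | 0, _, j => j.elim0
  | k + 1, h, j => by
    refine Fin.cases ?_ (fun j => ?_) j
    · simpa [tp] using h k (by omega)
    · simpa [tp] using tp_mem (fun i hi => h i (by omega)) j

theorem exists_tp' {f : ℕ → ZFSet.{0}} : {k : ℕ} → (j : Fin k) → ∃ i < k, tp f k j = f i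
  | 0, j => j.elim0
  | k + 1, j => by
    refine Fin.cases ?_ (fun j => ?_) j
    · exact ⟨k, by omega, by simp [tp]⟩
    · obtain ⟨i, hi, h⟩ := exists_tp' (f := f) j
      exact ⟨i, by omega, by simpa [tp] using h⟩

/-- The set `f k` contains `f 0, ..., f (k - 1)`, is transitive, and its elements have the same
type over these sets in `f k` and in `M`. -/
def Ev (M : Set ZFSet.{0}) (f : ℕ → ZFSet.{0}) (k : ℕ) : Prop :=
  (∀ i < k, f i ∈ f k) ∧ (∀ y ∈ f k, ∀ z ∈ y, z ∈ f k) ∧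
    ∀ y ∈ f k, ty {z | z ∈ f k} k (Fin.cons y (tp f k) : Fin (k + 1) → ZFSet.{0}) =
      ty M k (Fin.cons y (tp f k) : Fin (k + 1) → ZFSet.{0})

theorem ev_congr {M : Set ZFSet.{0}} {f g : ℕ → ZFSet.{0}} {k : ℕ} (h : ∀ i ≤ k, f i = g i) :
    Ev M f k ↔ Ev M g k := by
  unfold Ev
  rw [h k le_rfl, tp_congr fun i hi => h i hi.le]
  refine and_congr ?_ Iff.rfl
  exact forall_congr' fun i => forall_congr' fun hi => by rw [h i hi.le]

/-- The reflection principle for `M`. -/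
def Refl (M : Set ZFSet.{0}) : Prop :=
  ∀ (k : ℕ) (x : Fin k → ZFSet.{0}), (∀ i, x i ∈ M) → ∃ N ∈ M, (∀ y ∈ N, ∀ z ∈ y, z ∈ N) ∧
    (∀ i, x i ∈ N) ∧ ∀ y ∈ N, ty {z | z ∈ N} k (Fin.cons y x : Fin (k + 1) → ZFSet.{0}) =
      ty M k (Fin.cons y x : Fin (k + 1) → ZFSet.{0})

/-- A state without events. -/
structure EF (M : Set ZFSet.{0}) (n : ℕ) (f : ℕ → ZFSet.{0}) : Prop where
  pos : 1 ≤ n
  mem : ∀ i < n, f i ∈ M
  inj : ∀ i < n, ∀ j < n, f i = f j → i = j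
  ev : ∀ k < n, ¬ Ev M f k

theorem EF.congr {M : Set ZFSet.{0}} {n : ℕ} {f g : ℕ → ZFSet.{0}} (h : ∀ i < n, g i = f i)
    (hf : EF M n f) : EF M n g :=
  ⟨hf.pos, fun i hi => h i hi ▸ hf.mem i hi,
    fun i hi j hj => by rw [h i hi, h j hj]; exact hf.inj i hi j hj,
    fun k hk => by rw [ev_congr fun i hi => h i (by omega)]; exact hf.ev k hk⟩

/-- Extension of a state by one value. -/
theorem EF.step {M : Set ZFSet.{0}} {n : ℕ} {f : ℕ → ZFSet.{0}} (hf : EF M n f) {b : ZFSet.{0}}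
    (hb : b ∈ M) (hb' : ∀ i < n, f i ≠ b) (hi : ∃ i < n, f i ∉ b) :
    ∃ g : ℕ → ZFSet.{0}, (∀ i < n, g i = f i) ∧ g n = b ∧ EF M (n + 1) g := by
  refine ⟨fun i => if i < n then f i else b, fun i hi => if_pos hi, if_neg (lt_irrefl n), ?_⟩
  have h1 : ∀ i < n, (fun i => if i < n then f i else b) i = f i := fun i hi => if_pos hi
  have h2 : (fun i => if i < n then f i else b) n = b := if_neg (lt_irrefl n)
  set g : ℕ → ZFSet.{0} := fun i => if i < n then f i else b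
  have h3 := hf.congr h1
  refine ⟨by omega, fun i hi => ?_, fun i hi j hj hij => ?_, fun k hk => ?_⟩
  · rcases Nat.lt_succ_iff_lt_or_eq.1 hi with h | rfl
    · exact h3.mem i h
    · rw [h2]
      exact hb
  · rcases Nat.lt_succ_iff_lt_or_eq.1 hi with h | rfl <;>
      rcases Nat.lt_succ_iff_lt_or_eq.1 hj with h' | rfl
    · exact h3.inj i h j h' hij
    · rw [h2, h1 i h] at hij
      exact absurd hij (hb' i h)
    · rw [h2, h1 j h'] at hij
      exact absurd hij.symm (hb' j h')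
    · rfl
  · rcases Nat.lt_succ_iff_lt_or_eq.1 hk with h | rfl
    · exact h3.ev k h
    · intro h4
      obtain ⟨i, hi, h5⟩ := hi
      have h6 := h4.1 i hi
      rw [h1 i hi, h2] at h6
      exact h5 h6

theorem EF.junk {M : Set ZFSet.{0}} (hM : IsZF M) {n : ℕ} {f : ℕ → ZFSet.{0}} (hf : EF M n f)
    {w : ZFSet.{0}} (hw : w ∈ M) (hw' : ∀ i < n, (f i).rank < w.rank) :
    ∃ g : ℕ → ZFSet.{0}, (∀ i < n, g i = f i) ∧ g n = {w} ∧ EF M (n + 1) g := by
  refine hf.step (hM.single_mem hw) (fun i hi h => ?_) ⟨0, hf.pos, fun h => ?_⟩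
  · have h1 := hw' i hi
    rw [h] at h1
    exact lt_irrefl _ (h1.trans (ZFSet.rank_lt_of_mem (ZFSet.mem_singleton.2 rfl)))
  · have h1 := hw' 0 hf.pos
    rw [ZFSet.mem_singleton.1 h] at h1
    exact lt_irrefl _ h1

theorem EF.add {M : Set ZFSet.{0}} (hM : IsZF M) {n : ℕ} {f : ℕ → ZFSet.{0}} (hf : EF M n f)
    {b : ZFSet.{0}} (hb : b ∈ M) :
    ∃ m g, n ≤ m ∧ (∀ i < n, g i = f i) ∧ EF M m g ∧ ∃ i < m, g i = b := by
  by_cases h : ∃ i < n, f i = b
  · exact ⟨n, f, le_rfl, fun _ _ => rfl, hf, h⟩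
  · have hw : pair (cd f n) b ∈ M := hM.pair_mem (cd_mem hM hf.mem) hb
    obtain ⟨g, h1, h2, h3⟩ := hf.junk hM hw fun i hi =>
      (rank_cd hi).trans (rank_pair_left _ _)
    have hr : b.rank < (g n).rank := by
      rw [h2]
      exact (rank_pair_right _ _).trans (ZFSet.rank_lt_of_mem (ZFSet.mem_singleton.2 rfl))
    have h7 : ∀ i < n + 1, g i ≠ b := by
      intro i hi h7
      rcases Nat.lt_succ_iff_lt_or_eq.1 hi with h8 | rfl
      · exact h ⟨i, h8, (h1 i h8).symm.trans h7⟩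
      · rw [h7] at hr
        exact lt_irrefl _ hr
    have h8 : g n ∉ b := fun h7 => lt_irrefl _ (hr.trans (ZFSet.rank_lt_of_mem h7))
    obtain ⟨g', h4, h5, h6⟩ := h3.step hb h7 ⟨n, by omega, h8⟩
    refine ⟨n + 2, g', by omega, fun i hi => ?_, h6, n + 1, by omega, h5⟩
    rw [h4 i (by omega), h1 i hi]

theorem EF.addS {M : Set ZFSet.{0}} (hM : IsZF M) {n : ℕ} {f : ℕ → ZFSet.{0}} (hf : EF M n f)
    {S : Set ZFSet.{0}} (hS : S.Finite) (hSM : S ⊆ M) :
    ∃ m g, n ≤ m ∧ (∀ i < n, g i = f i) ∧ EF M m g ∧ ∀ b ∈ S, ∃ i < m, g i = b := by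
  induction S, hS using Set.Finite.induction_on with
  | empty => exact ⟨n, f, le_rfl, fun _ _ => rfl, hf, fun b hb => hb.elim⟩
  | @insert a s _ _ ih =>
    obtain ⟨m, g, h1, h2, h3, h4⟩ := ih fun x hx => hSM (Set.mem_insert_of_mem _ hx)
    obtain ⟨m', g', h5, h6, h7, h8⟩ := h3.add hM (hSM (Set.mem_insert a s))
    refine ⟨m', g', h1.trans h5, fun i hi => ?_, h7, fun b hb => ?_⟩
    · rw [h6 i (by omega), h2 i hi]
    · rcases hb with rfl | hb
      · exact h8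
      · obtain ⟨i, hi, h9⟩ := h4 b hb
        exact ⟨i, by omega, by rw [h6 i hi, h9]⟩

theorem EF.long {M : Set ZFSet.{0}} (hM : IsZF M) {n : ℕ} {f : ℕ → ZFSet.{0}} (hf : EF M n f)
    (s : ℕ) : ∃ m g, n ≤ m ∧ s ≤ m ∧ (∀ i < n, g i = f i) ∧ EF M m g := by
  induction s with
  | zero => exact ⟨n, f, le_rfl, by omega, fun _ _ => rfl, hf⟩
  | succ s ih =>
    obtain ⟨m, g, h1, h2, h3, h4⟩ := ih
    obtain ⟨g', h5, -, h6⟩ := h4.junk hM (cd_mem hM h4.mem) fun i hi => rank_cd hi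
    exact ⟨m + 1, g', by omega, by omega, fun i hi => by rw [h5 i (by omega), h3 i hi], h6⟩

/-! ### Parameters of formulas -/

theorem exists_params {M : Set ZFSet.{0}} : {r : ℕ} → (φ : Fml ZFSet.{0} r) → φ.Over M →
    ∃ S ⊆ M, S.Finite ∧ φ.Over S := by
  have ht : ∀ {r : ℕ} (s : Fin r ⊕ ZFSet.{0}), TOver M s → ∃ S ⊆ M, S.Finite ∧ TOver S s := by
    intro r s hs
    cases s with
    | inl i => exact ⟨∅, Set.empty_subset _, Set.finite_empty, TOver.inl i⟩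
    | inr a =>
      exact ⟨{a}, fun x hx => by rw [hx]; exact hs a rfl, Set.finite_singleton a,
        Pool.Agent.W868.tOver_inr.2 rfl⟩
  intro r φ
  induction φ with
  | mem s t =>
    intro h
    obtain ⟨S, h1, h2, h3⟩ := ht s h.1
    obtain ⟨T, h4, h5, h6⟩ := ht t h.2
    exact ⟨S ∪ T, Set.union_subset h1 h4, h2.union h5, h3.mono Set.subset_union_left,
      h6.mono Set.subset_union_right⟩
  | eq s t =>
    intro h
    obtain ⟨S, h1, h2, h3⟩ := ht s h.1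
    obtain ⟨T, h4, h5, h6⟩ := ht t h.2
    exact ⟨S ∪ T, Set.union_subset h1 h4, h2.union h5, h3.mono Set.subset_union_left,
      h6.mono Set.subset_union_right⟩
  | neg φ ih => exact fun h => ih h
  | and φ ψ ih1 ih2 =>
    intro h
    obtain ⟨S, h1, h2, h3⟩ := ih1 h.1
    obtain ⟨T, h4, h5, h6⟩ := ih2 h.2
    exact ⟨S ∪ T, Set.union_subset h1 h4, h2.union h5, h3.mono Set.subset_union_left,
      h6.mono Set.subset_union_right⟩
  | ex φ ih => exact fun h => ih h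

/-- Transitive sets that reflect a formula. -/
structure Rf (M : Set ZFSet.{0}) (n : ℕ) (f : ℕ → ZFSet.{0}) (ψ : Fml ZFSet.{0} 2) (x : ZFSet.{0})
    (N : ZFSet.{0}) : Prop where
  mem : N ∈ M
  trans : ∀ y ∈ N, ∀ z ∈ y, z ∈ N
  sub : ∀ i < n, f i ∈ N
  all : ∀ y ∈ N, (Sat {z | z ∈ N} id ψ ![y, x] ↔ Sat M id ψ ![y, x])
  ex : Sat {z | z ∈ N} id (.ex ψ) ![x] ↔ Sat M id (.ex ψ) ![x]

theorem rf_of_ev {M : Set ZFSet.{0}} {n k : ℕ} {f : ℕ → ZFSet.{0}} {ψ : Fml ZFSet.{0} 2}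
    {x N : ZFSet.{0}} {S : Set ZFSet.{0}} (hψ : ψ.Over S) (hψn : ψ.depth + 1 ≤ n)
    (hS : ∀ b ∈ S, ∃ i < n, f i = b) (hx : ∃ i < n, f i = x) (hnk : n ≤ k)
    (h1 : N ∈ M) (h2 : ∀ y ∈ N, ∀ z ∈ y, z ∈ N) (h3 : ∀ i < k, f i ∈ N)
    (h4 : ∀ y ∈ N, ty {z | z ∈ N} k (Fin.cons y (tp f k) : Fin (k + 1) → ZFSet.{0}) =
      ty M k (Fin.cons y (tp f k) : Fin (k + 1) → ZFSet.{0})) : Rf M n f ψ x N := by
  classical
  have h5 : ∀ b ∈ S, ∃ j, tp f k j = b := by
    intro b hb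
    obtain ⟨i, hi, rfl⟩ := hS b hb
    exact exists_tp (by omega)
  obtain ⟨i, hi, hix⟩ := hx
  obtain ⟨jx, hjx⟩ : ∃ j, tp f k j = x := by
    rw [← hix]
    exact exists_tp (by omega)
  let pos : ZFSet.{0} → Fin (k + 1) := fun b => if h : ∃ j, tp f k j = b then h.choose.succ else 0
  have hpos : ∀ y, ∀ b ∈ S, (Fin.cons y (tp f k) : Fin (k + 1) → ZFSet.{0}) (pos b) = b := by
    intro y b hb
    have h6 := h5 b hb
    simp only [pos, dif_pos h6, Fin.cons_succ]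
    exact h6.choose_spec
  have hne : {z | z ∈ N}.Nonempty := ⟨f 0, h3 0 (by omega)⟩
  have key1 : ∀ y ∈ N, (Sat {z | z ∈ N} id ψ ![y, x] ↔ Sat M id ψ ![y, x]) := by
    intro y hy
    have h6 := ty_sat ψ hψ k (by omega) _ _ hne (h4 y hy) pos
      (fun a ha => ⟨hpos y a ha, hpos y a ha⟩) ![0, jx.succ]
    have h7 : (fun i => (Fin.cons y (tp f k) : Fin (k + 1) → ZFSet.{0})
        ((![0, jx.succ] : Fin 2 → Fin (k + 1)) i)) = ![y, x] := by
      funext i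
      fin_cases i
      · rfl
      · simpa using hjx
    rwa [h7] at h6
  have key2 : Sat {z | z ∈ N} id (.ex ψ) ![x] ↔ Sat M id (.ex ψ) ![x] := by
    have h8 := h3 0 (by omega)
    have h6 := ty_sat (.ex ψ) hψ k (by simp only [Fml.depth]; omega) _ _ hne (h4 (f 0) h8) pos
      (fun a ha => ⟨hpos _ a ha, hpos _ a ha⟩) ![jx.succ]
    have h7 : (fun i => (Fin.cons (f 0) (tp f k) : Fin (k + 1) → ZFSet.{0})
        ((![jx.succ] : Fin 1 → Fin (k + 1)) i)) = ![x] := by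
      funext i
      fin_cases i
      simpa using hjx
    rwa [h7] at h6
  exact ⟨h1, h2, fun i hi => h3 i (by omega), key1, key2⟩

/-- Dense sets can be met without creating events. -/
theorem EF.dense {M : Set ZFSet.{0}} (hM : IsZF M) (hR : Refl M) {n : ℕ} {f : ℕ → ZFSet.{0}}
    (hf : EF M n f) {D : Set ZFSet.{0}} (hD : IsDefinable M M D)
    (hD' : IsDense {p | FCond M p} FLe D) :
    ∃ m g, n ≤ m ∧ (∀ i < n, g i = f i) ∧ EF M m g ∧ ∃ q ∈ D, FLe (cd g m) q := by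
  have hB := hM.base
  obtain ⟨φ, hφ, rfl⟩ := hD
  -- the formula
  let R : ZFSet.{0} → ZFSet.{0} → Prop := fun q x => Sat M id φ ![q] ∧
    ∃ p ∈ x, sn (sn p) ⊆ sn (sn q) ∧ pair (fs p) x ∈ sn (sn q)
  have hRd : Dfn M M fun w : Fin 2 → ZFSet.{0} => R (w 0) (w 1) := by
    have h1 : Dfn M M fun w : Fin 1 → ZFSet.{0} => Sat M id φ ![w 0] :=
      ⟨φ, hφ, fun v hv => by
        have h2 : v = ![v 0] := by
          funext i
          fin_cases i
          rfl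
        change Sat M id φ v ↔ Sat M id φ ![v 0]
        rw [← h2]⟩
    apply Dfn.and
    · exact Dfn.comp1 (Q := fun q => Sat M id φ ![q]) h1 (DfnF.proj 0)
    · apply hB.bex (DfnF.proj 1)
      apply Dfn.and
      · exact hB.subset' (hM.sn' (hM.sn' (DfnF.proj 0))) (hM.sn' (hM.sn' (DfnF.proj 1)))
      · exact Dfn.mem (hB.pair' (hM.fs' (DfnF.proj 0)) (DfnF.proj 2))
          (hM.sn' (hM.sn' (DfnF.proj 1)))
  obtain ⟨ψ, hψ, hψR⟩ := hRd
  obtain ⟨S, hSM, hSf, hψS⟩ := exists_params ψ hψ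
  -- the parameters
  obtain ⟨n0, f0, a1, a2, a3, a4⟩ := hf.addS hM hSf hSM
  obtain ⟨n1, f1, b1, b2, b3, b4⟩ := a3.long hM (ψ.depth + 1)
  obtain ⟨f2, c1, c2, c3⟩ := b4.junk hM (cd_mem hM b4.mem) fun i hi => rank_cd hi
  set x : ZFSet.{0} := {cd f1 n1} with hx
  have hxM : x ∈ M := hM.single_mem (cd_mem hM b4.mem)
  have hf2 : ∀ i < n, f2 i = f i := fun i hi => by
    rw [c1 i (by omega), b3 i (by omega), a2 i hi]
  have hS2 : ∀ b ∈ S, ∃ i < n1 + 1, f2 i = b := by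
    intro b hb
    obtain ⟨i, hi, h⟩ := a4 b hb
    exact ⟨i, by omega, by rw [c1 i (by omega), b3 i hi, h]⟩
  have hx2 : ∃ i < n1 + 1, f2 i = x := ⟨n1, by omega, c2⟩
  -- the truth of the existential formula
  have hex : Sat M id (.ex ψ) ![x] := by
    obtain ⟨q, hq, hle⟩ := hD'.2 (cd f2 (n1 + 1)) (fcond_cd c3.mem c3.inj)
    have hqc : FCond M q := hD'.1 hq
    obtain ⟨d, e, r, rfl, -⟩ := hqc
    have h1 := fn_sub_of_fle hle
    refine ⟨_, hq.1, ?_⟩
    have h2 := hψR ![pair d (pair e r), x] (by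
      intro i
      fin_cases i
      · exact hq.1
      · exact hxM)
    refine h2.2 ⟨hq.2, cd f1 n1, ZFSet.mem_singleton.2 rfl, ?_, ?_⟩
    · simp only [cd, sn_pair, Matrix.cons_val_zero]
      intro z hz
      obtain ⟨i, hi, rfl⟩ := mem_Fn.1 hz
      exact h1 (pair_mem_Fn.2 ⟨by omega, (c1 i hi).symm⟩)
    · simp only [cd, sn_pair, fs_pair, Matrix.cons_val_zero, Matrix.cons_val_one]
      exact h1 (pair_mem_Fn.2 ⟨by omega, c2.symm⟩)
  -- a reflecting set of minimal rank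
  have hN : ∃ N, Rf M (n1 + 1) f2 ψ x N := by
    obtain ⟨N, h1, h2, h3, h4⟩ := hR (n1 + 1) (tp f2 (n1 + 1)) (tp_mem c3.mem)
    refine ⟨N, rf_of_ev hψS (by omega) hS2 hx2 le_rfl h1 h2 (fun i hi => ?_) h4⟩
    obtain ⟨j, hj⟩ := exists_tp (f := f2) hi
    exact hj ▸ h3 j
  obtain ⟨N, hN, hmin⟩ := WellFounded.has_min (InvImage.wf ZFSet.rank Ordinal.lt_wf)
    {N | Rf M (n1 + 1) f2 ψ x N} hN
  obtain ⟨q, hqN, hq⟩ := hN.ex.2 hex
  have hqM : q ∈ M := hM.trans _ hN.mem _ hqN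
  have hq1 : Sat M id ψ ![q, x] := (hN.all q hqN).1 hq
  have hq2 : R q x := (hψR ![q, x] (by
    intro i
    fin_cases i
    · exact hqM
    · exact hxM)).1 hq1
  obtain ⟨hqφ, p, hp, hq3, hq4⟩ := hq2
  rw [hx, ZFSet.mem_singleton] at hp
  subst hp
  have hqD : q ∈ {y | y ∈ M ∧ Sat M id φ ![y]} := ⟨hqM, hqφ⟩
  have hqc : FCond M q := hD'.1 hqD
  have hqc0 := hqc
  obtain ⟨d, e, r, rfl, -, -, ⟨hr1, -⟩, -⟩ := hqc
  simp only [cd, sn_pair, fs_pair] at hq3 hq4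
  have hsub : Fn f2 (n1 + 1) ⊆ r := by
    intro z hz
    obtain ⟨i, hi, rfl⟩ := mem_Fn.1 hz
    rcases Nat.lt_succ_iff_lt_or_eq.1 hi with h | rfl
    · rw [c1 i h]
      exact hq3 (pair_mem_Fn.2 ⟨h, rfl⟩)
    · rw [c2]
      exact hq4
  obtain ⟨m, g, d1, d2, d3, d4, d5, d6⟩ := fill hM hqc0 hqM (by omega) hsub
  refine ⟨m, g, by omega, fun i hi => by rw [d2 i (by omega), hf2 i hi],
    ⟨by omega, d3, d4, fun k hk hev => ?_⟩, _, hqD, d5⟩
  by_cases hk1 : k < n1 + 1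
  · exact c3.ev k hk1 ((ev_congr fun i hi => d2 i (by omega)).1 hev)
  · rcases d6 k hk with h | h
    · have hgN : g k ∈ N := by
        have t1 := hN.trans _ hqN
        have t2 : ({d, pair e r} : ZFSet.{0}) ∈ N := t1 _ (by simp [pair])
        have t3 : pair e r ∈ N := hN.trans _ t2 _ (by simp)
        have t4 : ({e, r} : ZFSet.{0}) ∈ N := hN.trans _ t3 _ (by simp [pair])
        have t5 : r ∈ N := hN.trans _ t4 _ (by simp)
        have t6 := hN.trans _ t5 _ h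
        have t7 : ({nat k, g k} : ZFSet.{0}) ∈ N := hN.trans _ t6 _ (by simp [pair])
        exact hN.trans _ t7 _ (by simp)
      have hrf : Rf M (n1 + 1) f2 ψ x (g k) := by
        have h6 : Rf M (n1 + 1) g ψ x (g k) := by
          refine rf_of_ev (S := S) (k := k) hψS (by omega) ?_ ?_ (by omega) (d3 k hk)
            hev.2.1 hev.1 hev.2.2
          · intro b hb
            obtain ⟨i, hi, h⟩ := hS2 b hb
            exact ⟨i, hi, by rw [d2 i hi, h]⟩
          · obtain ⟨i, hi, h⟩ := hx2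
            exact ⟨i, hi, by rw [d2 i hi, h]⟩
        exact ⟨h6.mem, h6.trans, fun i hi => d2 i hi ▸ h6.sub i hi, h6.all, h6.ex⟩
      exact hmin _ hrf (ZFSet.rank_lt_of_mem hgN)
    · have h7 := hev.1 0 (by omega)
      rw [h, ZFSet.mem_singleton] at h7
      have h8 : (g 0).rank < (pair d (pair e r)).rank :=
        rank_value (hsub (pair_mem_Fn.2 ⟨by omega, d2 0 (by omega)⟩))
      rw [h7] at h8
      exact lt_irrefl _ (h8.trans (rank_pair_left _ _))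

end Q207.CF
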