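import Pool.Agent.Q207.CF.Refl

/-!
# Failure of the truth lemma for Friedman's forcing
-/

set_option autoImplicit false

namespace Q207.CF

open ZFSet (pair)
open Pool.Agent.W868 (Fml Sat IsZF nat)

/-- No element `S` of `v 0` is slim. -/
def fE : Fml Empty 1 :=
  .neg (.ex (.and (.mem (Sum.inl 0) (Sum.inl 1))
    (.neg (.ex (.and (.mem (Sum.inl 0) (Sum.inl 1))
      (.ex (.and (.mem (Sum.inl 0) (Sum.inl 1))
        (.ex (.and (.mem (Sum.inl 0) (Sum.inl 2)) (.neg (.eq (Sum.inl 0) (Sum.inl 1))))))))))))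

theorem sat_fE {E : Set ZFSet.{0}} (hE : ∀ x ∈ E, ∀ y ∈ x, y ∈ E) {v : Fin 1 → ZFSet.{0}}
    (hv : v 0 ∈ E) : Sat E Empty.elim fE v ↔ ¬ ∃ S ∈ v 0, Slim S := by
  simp only [fE, Sat, Sum.elim_inl]
  refine not_congr ?_
  constructor
  · rintro ⟨S, hS, h1, h2⟩
    refine ⟨S, h1, fun z hz a ha b hb => ?_⟩
    by_contra h3
    refine h2 ⟨z, hE _ hS _ hz, hz, a, hE _ (hE _ hS _ hz) _ ha, ha, b,
      hE _ (hE _ hS _ hz) _ hb, hb, fun h => h3 h.symm⟩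
  · rintro ⟨S, hS, h1⟩
    refine ⟨S, hE _ hv _ hS, hS, ?_⟩
    rintro ⟨z, hz, h2, a, ha, h3, b, hb, h4, h5⟩
    exact h5 (h1 z h2 a h3 b h4).symm

theorem ext_trans {M P G : Set ZFSet.{0}} (hM : ∀ x ∈ M, ∀ y ∈ x, y ∈ M) :
    ∀ x ∈ Ext M P G, ∀ y ∈ x, y ∈ Ext M P G := by
  rintro x ⟨σ, hσ, hn, rfl⟩ y hy
  obtain ⟨τ, p, hp, h, rfl⟩ := mem_val.1 hy
  refine ⟨τ, ?_, ?_, rfl⟩
  · have h1 := hM _ hσ _ h
    have h2 : ({τ} : ZFSet.{0}) ∈ M := hM _ h1 _ (by simp [pair])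
    exact hM _ h2 _ (ZFSet.mem_singleton.2 rfl)
  · obtain ⟨τ', p', -, h1, h2⟩ := isName_iff.1 hn _ h
    rwa [(ZFSet.pair_inj.1 h1).1]

/-- In the extension by `g`, the formula says that there is no event. -/
theorem sat_event {M : Set ZFSet.{0}} (hM : IsZF M) {g : ℕ → ZFSet.{0}} (hg : Gn M g) :
    (Sat (Ext M {p | FCond M p} (Gf M g)) Empty.elim fE fun _ => val (Gf M g) Sg) ↔
      ¬ ∃ k, Ev M g k := by
  rw [sat_fE (ext_trans hM.trans) ⟨Sg, Sg_mem hM, isName_Sg, rfl⟩]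
  refine not_congr ?_
  constructor
  · rintro ⟨S, hS, h⟩
    obtain ⟨k, rfl⟩ := mem_val_Sg.1 hS
    exact ⟨k, (slim_Sn hg hM.trans).1 h⟩
  · rintro ⟨k, hk⟩
    exact ⟨_, mem_val_Sg.2 ⟨k, rfl⟩, (slim_Sn hg hM.trans).2 hk⟩

/-- The truth lemma fails for Friedman's forcing over all countable transitive models of ZF. -/
theorem not_truthLemma {M : Set ZFSet.{0}} (hM : IsZF M) (hc : M.Countable) {S : Set ZFSet.{0}}
    (hS : S ⊆ M) : ¬ TruthLemma S M {p | FCond M p} FLe := by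
  intro h
  have hR := refl_of_zf hM
  obtain ⟨g, hg, hfree⟩ := exists_gn_free hM hc hR
  obtain ⟨p, hp, hp'⟩ := h 1 fE (fun _ => Sg) (fun _ => ⟨Sg_mem hM, isName_Sg⟩) _ (hg.generic hS)
    ((sat_event hM hg).2 fun ⟨k, hk⟩ => hfree k hk)
  obtain ⟨g', hg', hpg', hk⟩ := exists_gn_event hM hc hR hg hp
  exact (sat_event hM hg').1 (hp' _ (hg'.generic hS) hpg') hk

end Q207.CF
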