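import Pool.Agent.Q207.CF.DefN
import Pool.Agent.W868.LZF

/-!
# Reflection of types in transitive models of ZF
-/

set_option autoImplicit false

namespace Q207.CF

open ZFSet (pair)
open Pool.Agent.W868 (Fml Sat IsZF Dfn DfnF nat fs sn im mem_im gr mem_gr sc wfF wfF_eq sn_pair
  isOrdinal_sUnion isOrdinal_sc lo lo_spec tup ut ut_tup pw mem_pw dfn_pw dfn_ut itr itr_base
  itr_step itr_mono mem_itr_omega nat_mem_omega exists_common nat_subset itr_mem_M
  nat_subset_omega)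

/-! ### The cumulative hierarchy of a model -/

/-- The power set in `M`. -/
noncomputable def pwM (M : Set ZFSet.{0}) (x : ZFSet.{0}) : ZFSet.{0} :=
  ZFSet.sep (fun z => z ∈ M) (ZFSet.powerset x)

theorem mem_pwM {M : Set ZFSet.{0}} {x z : ZFSet.{0}} : z ∈ pwM M x ↔ z ∈ M ∧ z ⊆ x := by
  rw [pwM, ZFSet.mem_sep, ZFSet.mem_powerset]
  exact and_comm

/-- The levels of the cumulative hierarchy. -/
noncomputable def Vl (M : Set ZFSet.{0}) : ZFSet.{0} → ZFSet.{0} :=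
  wfF (fun z => z) ZFSet.mem_wf fun _ h => ZFSet.sUnion (im (fun p => pwM M (sn p)) h)

theorem Vl_eq (M : Set ZFSet.{0}) (z : ZFSet.{0}) :
    Vl M z = ZFSet.sUnion (im (fun p => pwM M (sn p)) (gr (Vl M) z)) := by
  rw [Vl, wfF_eq]

theorem mem_Vl {M : Set ZFSet.{0}} {z y : ZFSet.{0}} :
    y ∈ Vl M z ↔ ∃ u ∈ z, y ∈ M ∧ y ⊆ Vl M u := by
  rw [Vl_eq, ZFSet.mem_sUnion]
  constructor
  · rintro ⟨s, hs, hy⟩
    obtain ⟨p, hp, rfl⟩ := mem_im.1 hs
    obtain ⟨u, hu, rfl⟩ := mem_gr.1 hp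
    rw [sn_pair, mem_pwM] at hy
    exact ⟨u, hu, hy⟩
  · rintro ⟨u, hu, hy⟩
    refine ⟨_, mem_im.2 ⟨_, mem_gr.2 ⟨u, hu, rfl⟩, rfl⟩, ?_⟩
    rwa [sn_pair, mem_pwM]

/-- The rank. -/
noncomputable def rk : ZFSet.{0} → ZFSet.{0} :=
  wfF (fun z => z) ZFSet.mem_wf fun _ h => ZFSet.sUnion (im (fun p => sc (sn p)) h)

theorem rk_eq (z : ZFSet.{0}) : rk z = ZFSet.sUnion (im (fun p => sc (sn p)) (gr rk z)) := by
  rw [rk, wfF_eq]

theorem rk_mem {y z : ZFSet.{0}} (h : y ∈ z) : rk y ∈ rk z := by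
  rw [rk_eq z, ZFSet.mem_sUnion]
  refine ⟨_, mem_im.2 ⟨_, mem_gr.2 ⟨y, h, rfl⟩, rfl⟩, ?_⟩
  rw [sn_pair]
  exact ZFSet.mem_insert _ _

theorem isOrdinal_rk (z : ZFSet.{0}) : (rk z).IsOrdinal := by
  induction z using ZFSet.inductionOn with
  | _ z ih =>
  rw [rk_eq]
  refine isOrdinal_sUnion fun y hy => ?_
  obtain ⟨p, hp, rfl⟩ := mem_im.1 hy
  obtain ⟨u, hu, rfl⟩ := mem_gr.1 hp
  rw [sn_pair]
  exact isOrdinal_sc (ih u hu)

theorem subset_Vl {M : Set ZFSet.{0}} (hM : ∀ x ∈ M, ∀ y ∈ x, y ∈ M) {x : ZFSet.{0}}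
    (hx : x ∈ M) : x ⊆ Vl M (rk x) := by
  induction x using ZFSet.inductionOn with
  | _ x ih =>
  intro y hy
  exact mem_Vl.2 ⟨rk y, rk_mem hy, hM x hx y hy, ih y hy (hM x hx y hy)⟩

section

variable {M : Set ZFSet.{0}} (hM : IsZF M) {n : ℕ} {F : (Fin n → ZFSet.{0}) → ZFSet.{0}}

include hM

theorem pwM' (hF : DfnF M M F) : DfnF M M fun v => pwM M (F v) := by
  have hB := hM.base
  refine DfnF.comp1 (f := pwM M) ?_ hF
  refine DfnF.of_unique (R := fun y v => (∀ z ∈ y, z ⊆ v 0) ∧ ∀ z ∈ M, z ⊆ v 0 → z ∈ y) ?_ ?_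
  · apply Dfn.and
    · exact hB.ball (DfnF.proj 0) (hB.subset' (DfnF.proj 0) (DfnF.proj 2))
    · apply Dfn.all
      exact (hB.subset' (DfnF.proj 0) (DfnF.proj 2)).imp (Dfn.mem (DfnF.proj 0) (DfnF.proj 1))
  · intro v hv
    obtain ⟨y, hy, h1⟩ := hM.power _ (hv 0)
    have h2 : y = pwM M (v 0) := by
      ext z
      rw [h1, mem_pwM]
    refine ⟨h2 ▸ hy, fun y' hy' => ?_⟩
    constructor
    · rintro ⟨h3, h4⟩
      ext z
      rw [mem_pwM]
      exact ⟨fun hz => ⟨hM.trans _ hy' _ hz, h3 z hz⟩, fun hz => h4 z hz.1 hz.2⟩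
    · rintro rfl
      exact ⟨fun z hz => (mem_pwM.1 hz).2, fun z hz hz' => mem_pwM.2 ⟨hz, hz'⟩⟩

theorem Vl' (hF : DfnF M M F) : DfnF M M fun v => Vl M (F v) := by
  refine DfnF.comp1 (f := Vl M) ?_ hF
  refine hM.memrec (G := fun _ h => ZFSet.sUnion (im (fun p => pwM M (sn p)) h)) ?_ (Vl_eq M)
  exact hM.base.sUnion' (hM.im' (h := fun p _ => pwM M (sn p)) (DfnF.proj 1)
    (pwM' hM (hM.sn' (DfnF.proj 0))))

theorem rk_mem_M {x : ZFSet.{0}} (hx : x ∈ M) : rk x ∈ M := by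
  have h : DfnF M M fun w : Fin 1 → ZFSet.{0} => rk (w 0) := by
    refine hM.memrec (G := fun _ h => ZFSet.sUnion (im (fun p => sc (sn p)) h)) ?_ rk_eq
    exact hM.base.sUnion' (hM.im' (h := fun p _ => sc (sn p)) (DfnF.proj 1)
      (sc' hM (hM.sn' (DfnF.proj 0))))
  exact h.1 (fun _ => x) fun _ => hx

/-! ### Definability of the types -/

omit hM in
theorem dfn_allFin : {k : ℕ} → {R : Fin k → (Fin n → ZFSet.{0}) → Prop} →
    (∀ i, Dfn M M (R i)) → Dfn M M fun v => ∀ i, R i v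
  | 0, R, _ => Dfn.tt.congr fun v _ => ⟨fun _ i => i.elim0, fun _ => trivial⟩
  | k + 1, R, h => ((h 0).and (dfn_allFin fun i => h i.succ)).congr fun v _ => by
      rw [Fin.forall_fin_succ]

omit hM in
theorem dfn_ty : (t : ℕ) → {m n : ℕ} → (F G : Fin m → (Fin n → ZFSet.{0}) → ZFSet.{0}) →
    (∀ i, DfnF M M (F i)) → (∀ i, DfnF M M (G i)) →
    Dfn M M fun w => ty M t (fun i => F i w) = ty M t (fun i => G i w)
  | 0, m, n, F, G, hF, hG => by
    have h : Dfn M M fun w => (∀ i j, F i w ∈ F j w ↔ G i w ∈ G j w) ∧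
        ∀ i j, F i w = F j w ↔ G i w = G j w :=
      (dfn_allFin fun i => dfn_allFin fun j =>
        (Dfn.mem (hF i) (hF j)).iff (Dfn.mem (hG i) (hG j))).and
      (dfn_allFin fun i => dfn_allFin fun j =>
        (Dfn.eq (hF i) (hF j)).iff (Dfn.eq (hG i) (hG j)))
    exact h.congr fun w _ => ty_zero.symm
  | t + 1, m, n, F, G, hF, hG => by
    have hc : ∀ (F : Fin m → (Fin n → ZFSet.{0}) → ZFSet.{0}) (a : Fin (n + 2))
        (w : Fin (n + 2) → ZFSet.{0}),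
        (fun i => (Fin.cons (fun w => w a) (fun i w => F i (Fin.tail (Fin.tail w))) :
          Fin (m + 1) → (Fin (n + 2) → ZFSet.{0}) → ZFSet.{0}) i w) =
        (Fin.cons (w a) fun i => F i (Fin.tail (Fin.tail w)) : Fin (m + 1) → ZFSet.{0}) := by
      intro F a w
      funext i
      refine Fin.cases ?_ (fun i => ?_) i
      · rfl
      · rfl
    have hd : ∀ (F : Fin m → (Fin n → ZFSet.{0}) → ZFSet.{0}) (a : Fin (n + 2)),
        (∀ i, DfnF M M (F i)) → ∀ i, DfnF M M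
        ((Fin.cons (fun w => w a) (fun i w => F i (Fin.tail (Fin.tail w))) :
          Fin (m + 1) → (Fin (n + 2) → ZFSet.{0}) → ZFSet.{0}) i) := by
      intro F a hF i
      refine Fin.cases ?_ (fun i => ?_) i
      · exact DfnF.proj a
      · exact (hF i).tail.tail
    have h1 : Dfn M M fun w => (∀ y ∈ M, ∃ z ∈ M,
        ty M t (Fin.cons y (fun i => F i w) : Fin (m + 1) → ZFSet.{0}) =
          ty M t (Fin.cons z (fun i => G i w) : Fin (m + 1) → ZFSet.{0})) ∧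
        (∀ z ∈ M, ∃ y ∈ M,
          ty M t (Fin.cons y (fun i => F i w) : Fin (m + 1) → ZFSet.{0}) =
          ty M t (Fin.cons z (fun i => G i w) : Fin (m + 1) → ZFSet.{0})) := by
      apply Dfn.and
      · apply Dfn.all
        refine Dfn.ex (Q := fun z w => ty M t (Fin.cons (w 0)
          (fun i => F i (Fin.tail w)) : Fin (m + 1) → ZFSet.{0}) =
          ty M t (Fin.cons z (fun i => G i (Fin.tail w)) : Fin (m + 1) → ZFSet.{0})) ?_
        have h2 := dfn_ty t _ _ (hd F 1 hF) (hd G 0 hG)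
        refine h2.congr fun w _ => ?_
        rw [hc, hc]
        rfl
      · apply Dfn.all
        refine Dfn.ex (Q := fun y w => ty M t (Fin.cons y
          (fun i => F i (Fin.tail w)) : Fin (m + 1) → ZFSet.{0}) =
          ty M t (Fin.cons (w 0) (fun i => G i (Fin.tail w)) : Fin (m + 1) → ZFSet.{0})) ?_
        have h2 := dfn_ty t _ _ (hd F 0 hF) (hd G 1 hG)
        refine h2.congr fun w _ => ?_
        rw [hc, hc]
        rfl
    exact h1.congr fun w _ => ty_succ.symm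

/-! ### The closure points -/

/-- The least level that contains an element of each type over the tuple `p`. -/
noncomputable def al (M : Set ZFSet.{0}) (t m : ℕ) (p : ZFSet.{0}) : ZFSet.{0} :=
  lo M fun α => ∀ y ∈ M, ∃ z ∈ Vl M α,
    ty M t (Fin.cons y (ut m p) : Fin (m + 1) → ZFSet.{0}) =
      ty M t (Fin.cons z (ut m p) : Fin (m + 1) → ZFSet.{0})

theorem al' (t m : ℕ) (hF : DfnF M M F) : DfnF M M fun v => al M t m (F v) := by
  refine DfnF.comp1 (f := al M t m) ?_ hF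
  refine hM.lo' (Q := fun α v => ∀ y ∈ M, ∃ z ∈ Vl M α,
    ty M t (Fin.cons y (ut m (v 0)) : Fin (m + 1) → ZFSet.{0}) =
      ty M t (Fin.cons z (ut m (v 0)) : Fin (m + 1) → ZFSet.{0})) ?_
  apply Dfn.all
  refine hM.base.bex (Q := fun z w => ty M t (Fin.cons (w 0) (ut m (w 2)) :
    Fin (m + 1) → ZFSet.{0}) = ty M t (Fin.cons z (ut m (w 2)) : Fin (m + 1) → ZFSet.{0}))
    (Vl' hM (DfnF.proj 1)) ?_
  have hc : ∀ (a : Fin 4) (w : Fin 4 → ZFSet.{0}),
      (fun i => (Fin.cons (fun w => w a) (fun i w => ut m (w 3) i) :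
        Fin (m + 1) → (Fin 4 → ZFSet.{0}) → ZFSet.{0}) i w) =
      (Fin.cons (w a) (ut m (w 3)) : Fin (m + 1) → ZFSet.{0}) := by
    intro a w
    funext i
    refine Fin.cases ?_ (fun i => ?_) i
    · rfl
    · rfl
  have hd : ∀ (a : Fin 4) (i : Fin (m + 1)), DfnF M M
      ((Fin.cons (fun w => w a) (fun i w => ut m (w 3) i) :
        Fin (m + 1) → (Fin 4 → ZFSet.{0}) → ZFSet.{0}) i) := by
    intro a i
    refine Fin.cases ?_ (fun i => ?_) i
    · exact DfnF.proj a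
    · exact dfn_ut hM (DfnF.proj 3) m i
  have h2 := dfn_ty (M := M) t _ _ (hd 1) (hd 0)
  refine h2.congr fun w _ => ?_
  rw [hc, hc]
  rfl

theorem al_spec (t m : ℕ) {v : Fin m → ZFSet.{0}} {y : ZFSet.{0}} (hy : y ∈ M) :
    ∃ z ∈ Vl M (al M t m (tup v)), ty M t (Fin.cons y v : Fin (m + 1) → ZFSet.{0}) =
      ty M t (Fin.cons z v : Fin (m + 1) → ZFSet.{0}) := by
  classical
  have hfin := finite_Ty t (m + 1)
  -- a finite set of representatives
  let K : Set (Ty t (m + 1)) := {κ | ∃ y ∈ M, κ = ty M t (Fin.cons y v : Fin (m + 1) → ZFSet.{0})}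
  have hK : ∀ κ : Ty t (m + 1), ∃ y ∈ M, κ ∈ K →
      κ = ty M t (Fin.cons y v : Fin (m + 1) → ZFSet.{0}) := by
    intro κ
    by_cases h : κ ∈ K
    · obtain ⟨y, hy, h1⟩ := h
      exact ⟨y, hy, fun _ => h1⟩
    · exact ⟨y, hy, fun h' => absurd h' h⟩
  choose r hr1 hr2 using hK
  have h1 : ∃ s : ZFSet.{0}, ∀ x, x ∈ s ↔ x ∈ Set.range r :=
    ⟨ZFSet.range r, fun x => by rw [ZFSet.mem_range, Set.mem_range]⟩
  obtain ⟨s, hs⟩ := h1
  have hsM : s ∈ M := by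
    refine finite_mem hM ((Set.finite_range r).subset fun x hx => (hs x).1 hx) fun x hx => ?_
    obtain ⟨κ, rfl⟩ := (hs x).1 hx
    exact hr1 κ
  have h2 := subset_Vl hM.trans hsM
  have h3 := lo_spec (M := M) (P := fun α => ∀ y ∈ M, ∃ z ∈ Vl M α,
    ty M t (Fin.cons y (ut m (tup v)) : Fin (m + 1) → ZFSet.{0}) =
      ty M t (Fin.cons z (ut m (tup v)) : Fin (m + 1) → ZFSet.{0}))
    ⟨rk s, rk_mem_M hM hsM, isOrdinal_rk s, fun y hy => by
      rw [ut_tup]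
      refine ⟨r (ty M t (Fin.cons y v : Fin (m + 1) → ZFSet.{0})), h2 ((hs _).2 ⟨_, rfl⟩), ?_⟩
      exact hr2 _ ⟨y, hy, rfl⟩⟩
  have h4 := h3.2.2 y hy
  rw [al]
  rw [ut_tup] at h4 ⊢
  exact h4

/-- The closure operation. -/
noncomputable def Tk (M : Set ZFSet.{0}) (k : ℕ) : ℕ → ZFSet.{0} → ZFSet.{0}
  | 0, X => ZFSet.sUnion X
  | t + 1, X => Tk M k t X ∪
      ZFSet.sUnion (im (fun p => Vl M (al M t (2 * k - t) p)) (pw X (2 * k - t)))

theorem Tk' (k : ℕ) : (t : ℕ) → DfnF M M fun w : Fin 1 → ZFSet.{0} => Tk M k t (w 0)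
  | 0 => hM.base.sUnion' (DfnF.proj 0)
  | t + 1 => hM.base.union' (Tk' k t) (hM.base.sUnion' (hM.im'
      (h := fun p _ => Vl M (al M t (2 * k - t) p)) (dfn_pw hM _ (DfnF.proj 0))
      (Vl' hM (al' hM _ _ (DfnF.proj 0)))))

omit hM in
theorem Tk_zero (k : ℕ) {X : ZFSet.{0}} : (t : ℕ) → ZFSet.sUnion X ⊆ Tk M k t X
  | 0 => fun _ h => h
  | t + 1 => fun _ h => ZFSet.mem_union.2 (Or.inl (Tk_zero k t h))

omit hM in
theorem Tk_step (k : ℕ) {X : ZFSet.{0}} {t : ℕ} : (s : ℕ) → t < s →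
    ZFSet.sUnion (im (fun p => Vl M (al M t (2 * k - t) p)) (pw X (2 * k - t))) ⊆ Tk M k s X
  | 0, h => absurd h (by omega)
  | s + 1, h => by
    intro y hy
    rcases Nat.lt_succ_iff_lt_or_eq.1 h with h | rfl
    · exact ZFSet.mem_union.2 (Or.inl (Tk_step k s h hy))
    · exact ZFSet.mem_union.2 (Or.inr hy)

/-- Transitive models of ZF satisfy the reflection principle. -/
theorem refl_of_zf : Refl M := by
  intro k x hx
  obtain ⟨a, ha⟩ : ∃ a : ZFSet.{0}, ∀ y, y ∈ a ↔ y ∈ Set.range x :=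
    ⟨ZFSet.range x, fun y => by rw [ZFSet.mem_range, Set.mem_range]⟩
  have haM : a ∈ M := by
    refine finite_mem hM ((Set.finite_range x).subset fun y hy => (ha y).1 hy) fun y hy => ?_
    obtain ⟨i, rfl⟩ := (ha y).1 hy
    exact hx i
  set N := itr (Tk M k k) a ZFSet.omega with hN
  have hNM : N ∈ M := itr_mem_M hM haM hM.infinity (Tk' hM k k)
  have hstep : ∀ j : ℕ, Tk M k k (itr (Tk M k k) a (nat j)) ⊆ N := fun j =>
    itr_step (nat_mem_omega j)
  have hcl : ∀ t < k, ∀ m, m + t = 2 * k → ∀ w : Fin m → ZFSet.{0}, (∀ i, w i ∈ N) →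
      ∀ y ∈ M, ∃ z ∈ N, ty M t (Fin.cons y w : Fin (m + 1) → ZFSet.{0}) =
        ty M t (Fin.cons z w : Fin (m + 1) → ZFSet.{0}) := by
    intro t ht m hm w hw y hy
    obtain rfl : m = 2 * k - t := by omega
    obtain ⟨j, hj⟩ := exists_common (P := fun k' y => y ∈ itr (Tk M k k) a (nat k'))
      (fun x k' l hkl hx => itr_mono (nat_subset hkl) hx) w fun i => mem_itr_omega (hw i)
    obtain ⟨z, hz, h1⟩ := al_spec hM t _ (v := w) hy
    refine ⟨z, hstep j (Tk_step k k ht (ZFSet.mem_sUnion.2 ⟨_, mem_im.2 ⟨tup w,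
      mem_pw.2 ⟨w, hj, rfl⟩, rfl⟩, hz⟩)), h1⟩
  have hty : ∀ t ≤ k, ∀ m, m + t = 2 * k + 1 → ∀ w : Fin m → ZFSet.{0}, (∀ i, w i ∈ N) →
      ty {z | z ∈ N} t w = ty M t w := by
    intro t
    induction t with
    | zero => exact fun _ m _ w _ => ty_zero.2 ⟨fun _ _ => Iff.rfl, fun _ _ => Iff.rfl⟩
    | succ t ih =>
      intro ht m hm w hw
      have hc : ∀ y ∈ N, ∀ i, (Fin.cons y w : Fin (m + 1) → ZFSet.{0}) i ∈ N := by
        intro y hy i
        refine Fin.cases ?_ (fun i => ?_) i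
        · exact hy
        · exact hw i
      rw [ty_succ]
      constructor
      · intro y hy
        exact ⟨y, hM.trans _ hNM _ hy, ih (by omega) (m + 1) (by omega) _ (hc y hy)⟩
      · intro y hy
        obtain ⟨z, hz, h1⟩ := hcl t (by omega) m (by omega) w hw y hy
        refine ⟨z, hz, ?_⟩
        rw [h1]
        exact ih (by omega) (m + 1) (by omega) _ (hc z hz)
  refine ⟨N, hNM, fun y hy z hz => ?_, fun i => ?_, fun y hy => ?_⟩
  · obtain ⟨j, hj⟩ := mem_itr_omega hy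
    exact hstep j (Tk_zero k k (ZFSet.mem_sUnion.2 ⟨y, hj, hz⟩))
  · exact itr_base ((ha _).2 ⟨i, rfl⟩)
  · refine hty k le_rfl (k + 1) (by omega) _ fun i => ?_
    refine Fin.cases ?_ (fun i => ?_) i
    · exact hy
    · exact itr_base ((ha _).2 ⟨i, rfl⟩)

end

end Q207.CF
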