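import Pool.Agent.Q207.CF.Defs
import Pool.Agent.W868.Fml

/-!
# Back and forth types
-/

set_option autoImplicit false

namespace Q207.CF

open Pool.Agent.W868 (Fml Sat TOver)

/-- The set of the back and forth types of depth `n` of `m`-tuples. -/
def Ty : ℕ → ℕ → Type
  | 0, m => Set (Fin m × Fin m) × Set (Fin m × Fin m)
  | n + 1, m => Set (Ty n (m + 1))

theorem finite_Ty : (n m : ℕ) → Finite (Ty n m)
  | 0, m => inferInstanceAs (Finite (Set (Fin m × Fin m) × Set (Fin m × Fin m)))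
  | n + 1, m => by
    have := finite_Ty n (m + 1)
    exact inferInstanceAs (Finite (Set (Ty n (m + 1))))

/-- The back and forth type of a tuple. -/
def ty (A : Set ZFSet.{0}) : (n : ℕ) → {m : ℕ} → (Fin m → ZFSet.{0}) → Ty n m
  | 0, m, v => (({p : Fin m × Fin m | v p.1 ∈ v p.2}, {p : Fin m × Fin m | v p.1 = v p.2}) :
      Set (Fin m × Fin m) × Set (Fin m × Fin m))
  | n + 1, m, v => ({κ : Ty n (m + 1) | ∃ y ∈ A, κ = ty A n (Fin.cons y v)} : Set (Ty n (m + 1)))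

theorem ty_zero {A B : Set ZFSet.{0}} {m : ℕ} {v w : Fin m → ZFSet.{0}} :
    ty A 0 v = ty B 0 w ↔ (∀ i j, v i ∈ v j ↔ w i ∈ w j) ∧ ∀ i j, v i = v j ↔ w i = w j := by
  have h0 : ty A 0 v = ty B 0 w ↔
      (({p : Fin m × Fin m | v p.1 ∈ v p.2}, {p : Fin m × Fin m | v p.1 = v p.2}) :
        Set (Fin m × Fin m) × Set (Fin m × Fin m)) =
      ({p : Fin m × Fin m | w p.1 ∈ w p.2}, {p : Fin m × Fin m | w p.1 = w p.2}) := Iff.rfl
  rw [h0, Prod.mk.injEq, Set.ext_iff, Set.ext_iff]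
  simp only [Set.mem_setOf_eq, Prod.forall]

theorem ty_succ {A B : Set ZFSet.{0}} {n m : ℕ} {v w : Fin m → ZFSet.{0}} :
    ty A (n + 1) v = ty B (n + 1) w ↔
      (∀ y ∈ A, ∃ z ∈ B, ty A n (Fin.cons y v) = ty B n (Fin.cons z w)) ∧
      (∀ z ∈ B, ∃ y ∈ A, ty A n (Fin.cons y v) = ty B n (Fin.cons z w)) := by
  have h0 : ty A (n + 1) v = ty B (n + 1) w ↔
      {κ : Ty n (m + 1) | ∃ y ∈ A, κ = ty A n (Fin.cons y v)} =
      {κ : Ty n (m + 1) | ∃ y ∈ B, κ = ty B n (Fin.cons y w)} := Iff.rfl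
  rw [h0, Set.ext_iff]
  constructor
  · intro h
    constructor
    · intro y hy
      obtain ⟨z, hz, h1⟩ := (h (ty A n (Fin.cons y v))).1 ⟨y, hy, rfl⟩
      exact ⟨z, hz, h1⟩
    · intro z hz
      obtain ⟨y, hy, h1⟩ := (h (ty B n (Fin.cons z w))).2 ⟨z, hz, rfl⟩
      exact ⟨y, hy, h1.symm⟩
  · rintro ⟨h1, h2⟩ κ
    constructor
    · rintro ⟨y, hy, rfl⟩
      obtain ⟨z, hz, h⟩ := h1 y hy
      exact ⟨z, hz, h⟩
    · rintro ⟨z, hz, rfl⟩
      obtain ⟨y, hy, h⟩ := h2 z hz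
      exact ⟨y, hy, h.symm⟩

theorem ty_zero_of {A B : Set ZFSet.{0}} : {n m : ℕ} → {v w : Fin m → ZFSet.{0}} →
    A.Nonempty → ty A n v = ty B n w → ty A 0 v = ty B 0 w
  | 0, _, _, _, _, h => h
  | n + 1, m, v, w, hA, h => by
    obtain ⟨y, hy⟩ := hA
    obtain ⟨z, hz, h1⟩ := (ty_succ.1 h).1 y hy
    have h2 := ty_zero.1 (ty_zero_of ⟨y, hy⟩ h1)
    refine ty_zero.2 ⟨fun i j => ?_, fun i j => ?_⟩
    · simpa using h2.1 i.succ j.succ
    · simpa using h2.2 i.succ j.succ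

/-- Tuples with the same type satisfy the same formulas. The parameters of the formula occur in
the tuple, at the places given by `pos`. -/
theorem ty_sat {A B S : Set ZFSet.{0}} : {r : ℕ} → (φ : Fml ZFSet.{0} r) → φ.Over S →
    (n : ℕ) → φ.depth ≤ n → {m : ℕ} → (v w : Fin m → ZFSet.{0}) → A.Nonempty →
    ty A n v = ty B n w →
    (pos : ZFSet.{0} → Fin m) → (∀ a ∈ S, v (pos a) = a ∧ w (pos a) = a) →
    (ρ : Fin r → Fin m) → (Sat A id φ (fun i => v (ρ i)) ↔ Sat B id φ (fun i => w (ρ i)))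
  | r, .mem s t, h, n, _, m, v, w, hA, hvw, pos, hpos, ρ => by
    have h1 := ty_zero.1 (ty_zero_of hA hvw)
    have h2 : ∀ s : Fin r ⊕ ZFSet.{0}, TOver S s → ∃ i, Sum.elim (fun i => v (ρ i)) id s = v i ∧
        Sum.elim (fun i => w (ρ i)) id s = w i := by
      intro s hs
      cases s with
      | inl i => exact ⟨ρ i, rfl, rfl⟩
      | inr a => exact ⟨pos a, (hpos a (hs a rfl)).1.symm, (hpos a (hs a rfl)).2.symm⟩
    obtain ⟨i, hi, hi'⟩ := h2 s h.1
    obtain ⟨j, hj, hj'⟩ := h2 t h.2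
    simp only [Sat]
    rw [hi, hi', hj, hj']
    exact h1.1 i j
  | r, .eq s t, h, n, _, m, v, w, hA, hvw, pos, hpos, ρ => by
    have h1 := ty_zero.1 (ty_zero_of hA hvw)
    have h2 : ∀ s : Fin r ⊕ ZFSet.{0}, TOver S s → ∃ i, Sum.elim (fun i => v (ρ i)) id s = v i ∧
        Sum.elim (fun i => w (ρ i)) id s = w i := by
      intro s hs
      cases s with
      | inl i => exact ⟨ρ i, rfl, rfl⟩
      | inr a => exact ⟨pos a, (hpos a (hs a rfl)).1.symm, (hpos a (hs a rfl)).2.symm⟩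
    obtain ⟨i, hi, hi'⟩ := h2 s h.1
    obtain ⟨j, hj, hj'⟩ := h2 t h.2
    simp only [Sat]
    rw [hi, hi', hj, hj']
    exact h1.2 i j
  | r, .neg φ, h, n, hn, m, v, w, hA, hvw, pos, hpos, ρ => by
    simp only [Fml.depth] at hn
    exact not_congr (ty_sat φ h n (by omega) v w hA hvw pos hpos ρ)
  | r, .and φ ψ, h, n, hn, m, v, w, hA, hvw, pos, hpos, ρ => by
    simp only [Fml.depth] at hn
    exact and_congr (ty_sat φ h.1 n (by omega) v w hA hvw pos hpos ρ)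
      (ty_sat ψ h.2 n (by omega) v w hA hvw pos hpos ρ)
  | r, .ex φ, h, n, hn, m, v, w, hA, hvw, pos, hpos, ρ => by
    simp only [Fml.depth] at hn
    obtain ⟨n, rfl⟩ : ∃ k, n = k + 1 := ⟨n - 1, by omega⟩
    have h1 := ty_succ.1 hvw
    have key : ∀ y z, ty A n (Fin.cons y v : Fin (m + 1) → ZFSet.{0}) =
        ty B n (Fin.cons z w : Fin (m + 1) → ZFSet.{0}) →
        (Sat A id φ (Fin.cons y fun i => v (ρ i)) ↔ Sat B id φ (Fin.cons z fun i => w (ρ i))) := by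
      intro y z hyz
      have h2 := ty_sat φ h n (by omega) (Fin.cons y v : Fin (m + 1) → ZFSet.{0})
        (Fin.cons z w : Fin (m + 1) → ZFSet.{0}) hA hyz (fun a => (pos a).succ)
        (fun a ha => by simpa using hpos a ha) (Fin.cons 0 fun i => (ρ i).succ)
      have h3 : ∀ (y : ZFSet.{0}) (v : Fin m → ZFSet.{0}),
          (fun i => (Fin.cons y v : Fin (m + 1) → ZFSet.{0})
            ((Fin.cons 0 fun i => (ρ i).succ : Fin (r + 1) → Fin (m + 1)) i)) =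
          (Fin.cons y fun i => v (ρ i) : Fin (r + 1) → ZFSet.{0}) := by
        intro y v
        funext i
        refine Fin.cases ?_ (fun i => ?_) i
        · rfl
        · simp
      rwa [h3, h3] at h2
    simp only [Sat]
    constructor
    · rintro ⟨y, hy, h2⟩
      obtain ⟨z, hz, h3⟩ := h1.1 y hy
      exact ⟨z, hz, (key y z h3).1 h2⟩
    · rintro ⟨z, hz, h2⟩
      obtain ⟨y, hy, h3⟩ := h1.2 z hz
      exact ⟨y, hy, (key y z h3).2 h2⟩

end Q207.CF
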