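import Pool.Agent.Q207.CF.Main
import Pool.Agent.W868.DZero

/-!
# Friedman's forcing is defined by the same formulas in all models
-/

set_option autoImplicit false

namespace Q207.CF

open ZFSet (pair)
open Pool.Agent.W868 (Fml Sat IsZF nat D0 D0v mem_omega_iff)

/-- The relation `R M` is defined over `M` by a formula that does not depend on `M`. -/
def Ud {n : ℕ} (R : Set ZFSet.{0} → (Fin n → ZFSet.{0}) → Prop) : Prop :=
  ∃ φ : Fml Empty n, ∀ M : Set ZFSet.{0}, IsZF M →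
    ∀ v, (∀ i, v i ∈ M) → (Sat M Empty.elim φ v ↔ R M v)

section

variable {n : ℕ} {R T : Set ZFSet.{0} → (Fin n → ZFSet.{0}) → Prop}

theorem Ud.congr (h : Ud R) (h' : ∀ M, IsZF M → ∀ v, (∀ i, v i ∈ M) → (R M v ↔ T M v)) :
    Ud T := by
  obtain ⟨φ, hφ⟩ := h
  exact ⟨φ, fun M hM v hv => (hφ M hM v hv).trans (h' M hM v hv)⟩

theorem Ud.of {Q : (Fin n → ZFSet.{0}) → Prop} (h : D0 Q) : Ud fun _ v => Q v := by
  obtain ⟨φ, hφ⟩ := h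
  exact ⟨φ, fun M hM v hv => hφ M hM.trans v hv⟩

theorem Ud.not (h : Ud R) : Ud fun M v => ¬ R M v := by
  obtain ⟨φ, hφ⟩ := h
  exact ⟨.neg φ, fun M hM v hv => not_congr (hφ M hM v hv)⟩

theorem Ud.and (h : Ud R) (h' : Ud T) : Ud fun M v => R M v ∧ T M v := by
  obtain ⟨φ, hφ⟩ := h
  obtain ⟨ψ, hψ⟩ := h'
  exact ⟨.and φ ψ, fun M hM v hv => and_congr (hφ M hM v hv) (hψ M hM v hv)⟩

theorem Ud.imp (h : Ud R) (h' : Ud T) : Ud fun M v => R M v → T M v :=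
  (h.and h'.not).not.congr fun M _ v _ => by tauto

theorem Ud.ex {Q : Set ZFSet.{0} → ZFSet.{0} → (Fin n → ZFSet.{0}) → Prop}
    (h : Ud fun M (w : Fin (n + 1) → ZFSet.{0}) => Q M (w 0) (Fin.tail w)) :
    Ud fun M v => ∃ a ∈ M, Q M a v := by
  obtain ⟨φ, hφ⟩ := h
  refine ⟨.ex φ, fun M hM v hv => ?_⟩
  have h1 : ∀ a ∈ M, (Sat M Empty.elim φ (Fin.cons a v) ↔ Q M a v) := by
    intro a ha
    refine hφ M hM _ fun i => ?_
    refine Fin.cases ?_ (fun i => ?_) i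
    · exact ha
    · exact hv i
  constructor
  · rintro ⟨a, ha, h2⟩
    exact ⟨a, ha, (h1 a ha).1 h2⟩
  · rintro ⟨a, ha, h2⟩
    exact ⟨a, ha, (h1 a ha).2 h2⟩

theorem Ud.all {Q : Set ZFSet.{0} → ZFSet.{0} → (Fin n → ZFSet.{0}) → Prop}
    (h : Ud fun M (w : Fin (n + 1) → ZFSet.{0}) => Q M (w 0) (Fin.tail w)) :
    Ud fun M v => ∀ a ∈ M, Q M a v := by
  refine (Ud.ex (Q := fun M a v => ¬ Q M a v) h.not).not.congr fun M _ v _ => ?_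
  constructor
  · intro h2 a ha
    by_contra h3
    exact h2 ⟨a, ha, h3⟩
  · rintro h2 ⟨a, ha, h3⟩
    exact h3 (h2 a ha)

end

/-! ### The natural numbers -/

/-- The set `w` is inductive. -/
def Ind (w : ZFSet.{0}) : Prop :=
  (∃ z ∈ w, ∀ _ ∈ z, False) ∧ ∀ x ∈ w, ∃ y ∈ w, (∀ z ∈ y, z ∈ x ∨ z = x) ∧ x ∈ y ∧ ∀ z ∈ x, z ∈ y

theorem d0_ind {n : ℕ} {F : (Fin n → ZFSet.{0}) → ZFSet.{0}} (hF : D0v F) :
    D0 fun v => Ind (F v) := by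
  have h1 := hF.tail
  have hf : ∀ {m : ℕ}, D0 fun _ : Fin m → ZFSet.{0} => False :=
    D0.tt.not.congr fun _ => by simp
  apply D0.and
  · apply D0.bex hF
    apply D0.ball (D0v.proj 0)
    exact hf
  · apply D0.ball hF
    apply D0.bex h1
    apply D0.and
    · apply D0.ball (D0v.proj 0)
      exact (D0.mem (D0v.proj 0) (D0v.proj 2)).or (D0.eq (D0v.proj 0) (D0v.proj 2))
    · apply D0.and (D0.mem (D0v.proj 1) (D0v.proj 0))
      apply D0.ball (D0v.proj 1)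
      exact D0.mem (D0v.proj 0) (D0v.proj 1)

theorem ind_iff {w : ZFSet.{0}} : Ind w ↔ ∅ ∈ w ∧ ∀ x ∈ w, insert x x ∈ w := by
  refine and_congr ?_ (forall_congr' fun x => forall_congr' fun _ => ?_)
  · constructor
    · rintro ⟨z, hz, h⟩
      have h1 : z = ∅ := by
        ext y
        exact ⟨fun hy => (h y hy).elim, fun hy => absurd hy (ZFSet.notMem_empty _)⟩
      exact h1 ▸ hz
    · intro h
      exact ⟨∅, h, fun y hy => absurd hy (ZFSet.notMem_empty _)⟩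
  · constructor
    · rintro ⟨y, hy, h1, h2, h3⟩
      have h4 : y = insert x x := by
        ext z
        rw [ZFSet.mem_insert_iff]
        constructor
        · exact fun hz => (h1 z hz).symm
        · rintro (rfl | hz)
          · exact h2
          · exact h3 z hz
      exact h4 ▸ hy
    · intro h
      exact ⟨_, h, fun z hz => (ZFSet.mem_insert_iff.1 hz).symm, ZFSet.mem_insert _ _,
        fun z hz => ZFSet.mem_insert_of_mem _ hz⟩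

theorem omega_iff {M : Set ZFSet.{0}} (hM : IsZF M) {w : ZFSet.{0}} (hw : w ∈ M) :
    (Ind w ∧ ∀ u ∈ M, Ind u → w ⊆ u) ↔ w = ZFSet.omega := by
  have h1 : ∀ u, Ind u → ZFSet.omega ⊆ u := by
    intro u hu x hx
    obtain ⟨k, rfl⟩ := mem_omega_iff.1 hx
    rw [ind_iff] at hu
    induction k with
    | zero => exact hu.1
    | succ k ih => exact hu.2 _ (ih (Pool.Agent.W868.nat_mem_omega k))
  have h2 : Ind ZFSet.omega := by
    rw [ind_iff]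
    refine ⟨ZFSet.omega_zero, fun x hx => ZFSet.omega_succ hx⟩
  constructor
  · rintro ⟨h3, h4⟩
    ext x
    exact ⟨fun hx => h4 _ hM.infinity h2 hx, fun hx => h1 w h3 hx⟩
  · rintro rfl
    exact ⟨h2, fun u _ hu => h1 u hu⟩

/-! ### Acyclic relations -/

theorem acyclic_iff {M : Set ZFSet.{0}} (hM : IsZF M) {d e : ZFSet.{0}} (hd : d ∈ M)
    (hdf : {i | i ∈ d}.Finite) (he : ∀ x ∈ e, ∃ i ∈ d, ∃ j ∈ d, x = pair i j) :
    (∀ i, ¬ Relation.TransGen (fun a b => pair a b ∈ e) i i) ↔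
      ∀ s ∈ M, s ⊆ d → (∃ i, i ∈ s) → ∃ i ∈ s, ∀ j ∈ s, pair j i ∉ e := by
  constructor
  · rintro h s - hsd ⟨i, hi⟩
    have hfin : Finite {x // x ∈ s} := (hdf.subset fun x hx => hsd hx).to_subtype
    let r : {x // x ∈ s} → {x // x ∈ s} → Prop := fun x y =>
      Relation.TransGen (fun a b => pair a b ∈ e) x.1 y.1
    have h1 : IsTrans _ r := ⟨fun x y z h1 h2 => h1.trans h2⟩
    have h2 : Std.Irrefl r := ⟨fun x hx => h x.1 hx⟩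
    have h3 : WellFounded r := Finite.wellFounded_of_trans_of_irrefl r
    obtain ⟨m, -, hm⟩ := h3.has_min Set.univ ⟨⟨i, hi⟩, trivial⟩
    exact ⟨m.1, m.2, fun j hj hjm => hm ⟨j, hj⟩ trivial (Relation.TransGen.single hjm)⟩
  · intro h i hi
    set s := ZFSet.sep (fun x => Relation.TransGen (fun a b => pair a b ∈ e) x i ∧
      Relation.TransGen (fun a b => pair a b ∈ e) i x) d with hs
    have hsd : s ⊆ d := fun x hx => (ZFSet.mem_sep.1 hx).1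
    have hsM : s ∈ M := finite_mem hM (hdf.subset fun x hx => hsd hx)
      fun x hx => hM.trans _ hd _ (hsd hx)
    have hlast : ∀ a b, Relation.TransGen (fun a b => pair a b ∈ e) a b → b ∈ d := by
      intro a b hab
      have h1 : ∀ a b, pair a b ∈ e → b ∈ d := by
        intro a b hab
        obtain ⟨i, -, j, hj, h2⟩ := he _ hab
        rw [(ZFSet.pair_inj.1 h2).2]
        exact hj
      cases hab with
      | single h2 => exact h1 _ _ h2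
      | tail _ h2 => exact h1 _ _ h2
    obtain ⟨x, hx, hmin⟩ := h s hsM hsd ⟨i, ZFSet.mem_sep.2 ⟨hlast i i hi, hi, hi⟩⟩
    obtain ⟨-, h1, h2⟩ := ZFSet.mem_sep.1 hx
    cases h2 with
    | single h3 => exact hmin i (ZFSet.mem_sep.2 ⟨hlast i i hi, hi, hi⟩) h3
    | @tail y _ h3 h4 =>
      exact hmin y (ZFSet.mem_sep.2 ⟨hlast _ _ h3, Relation.TransGen.head h4 h1, h3⟩) h4

/-! ### The conditions -/

/-- The part of the definition of the conditions that is expressed by bounded quantifiers. -/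
def Bd (d e f : ZFSet.{0}) : Prop :=
  (∀ x ∈ e, ∃ i ∈ d, ∃ j ∈ d, x = pair i j) ∧
  (∀ x ∈ f, ∃ i y, x = pair i y ∧ i ∈ d) ∧
  (∀ x ∈ f, ∀ x' ∈ f, ∃ i y, x = pair i y ∧ ∃ i' y', x' = pair i' y' ∧
    ((i = i' → y = y') ∧ (y = y' → i = i'))) ∧
  ((∀ x ∈ f, False) ∨ ∀ i ∈ d, ∃ x ∈ f, ∃ j y, x = pair j y ∧ j = i) ∧
  ((∀ i ∈ d, ∃ x ∈ f, ∃ j y, x = pair j y ∧ j = i) →
    ∀ x ∈ f, ∀ x' ∈ f, ∃ i y, x = pair i y ∧ ∃ j z, x' = pair j z ∧ (pair i j ∈ e ↔ y ∈ z))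

theorem d0_bd {n : ℕ} {F G H : (Fin n → ZFSet.{0}) → ZFSet.{0}} (hF : D0v F) (hG : D0v G)
    (hH : D0v H) : D0 fun v => Bd (F v) (G v) (H v) := by
  have hf : ∀ {m : ℕ}, D0 fun _ : Fin m → ZFSet.{0} => False :=
    D0.tt.not.congr fun _ => by simp
  have hdom : D0 fun v => ∀ i ∈ F v, ∃ x ∈ H v, ∃ j y, x = pair j y ∧ j = i := by
    apply D0.ball hF
    apply D0.bex hH.tail
    apply D0.expair (D0v.proj 0)
    exact D0.eq (D0v.proj 1) (D0v.proj 3)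
  apply D0.and
  · apply D0.ball hG
    apply D0.bex hF.tail
    apply D0.bex hF.tail.tail
    exact D0.isPair (D0v.proj 2) (D0v.proj 1) (D0v.proj 0)
  · apply D0.and
    · apply D0.ball hH
      apply D0.expair (D0v.proj 0)
      exact D0.mem (D0v.proj 1) hF.tail.tail.tail
    · apply D0.and
      · apply D0.ball hH
        apply D0.ball hH.tail
        apply D0.expair (D0v.proj 1)
        apply D0.expair (D0v.proj 2)
        exact ((D0.eq (D0v.proj 3) (D0v.proj 1)).imp (D0.eq (D0v.proj 2) (D0v.proj 0))).and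
          ((D0.eq (D0v.proj 2) (D0v.proj 0)).imp (D0.eq (D0v.proj 3) (D0v.proj 1)))
      · apply D0.and
        · apply D0.or
          · exact D0.ball hH hf
          · exact hdom
        · apply D0.imp hdom
          apply D0.ball hH
          apply D0.ball hH.tail
          apply D0.expair (D0v.proj 1)
          apply D0.expair (D0v.proj 2)
          exact (D0.pairMem (D0v.proj 3) (D0v.proj 1) hG.tail.tail.tail.tail.tail.tail).iff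
            (D0.mem (D0v.proj 2) (D0v.proj 0))

theorem bd_iff {M : Set ZFSet.{0}} (hM : IsZF M) {d e f : ZFSet.{0}} (hf : f ∈ M) :
    Bd d e f ↔ (∀ x ∈ e, ∃ i ∈ d, ∃ j ∈ d, x = pair i j) ∧
      ((∀ x ∈ f, ∃ i ∈ d, ∃ y ∈ M, x = pair i y) ∧
      (∀ i y z, pair i y ∈ f → pair i z ∈ f → y = z) ∧
      (∀ i j y, pair i y ∈ f → pair j y ∈ f → i = j) ∧
      (f = ∅ ∨ ∀ i ∈ d, ∃ y, pair i y ∈ f)) ∧
    ((∀ i ∈ d, ∃ y, pair i y ∈ f) → ∀ i ∈ d, ∀ j ∈ d, ∀ y z, pair i y ∈ f → pair j z ∈ f →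
      (pair i j ∈ e ↔ y ∈ z)) := by
  have hdom : (∀ i ∈ d, ∃ x ∈ f, ∃ j y, x = pair j y ∧ j = i) ↔ ∀ i ∈ d, ∃ y, pair i y ∈ f := by
    refine forall_congr' fun i => forall_congr' fun _ => ?_
    constructor
    · rintro ⟨x, hx, j, y, rfl, rfl⟩
      exact ⟨y, hx⟩
    · rintro ⟨y, hy⟩
      exact ⟨_, hy, i, y, rfl, rfl⟩
  constructor
  · rintro ⟨h1, h2, h3, h4, h5⟩
    have hp : ∀ i y, pair i y ∈ f → i ∈ d := by
      intro i y h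
      obtain ⟨i', y', h6, h7⟩ := h2 _ h
      rwa [(ZFSet.pair_inj.1 h6).1]
    refine ⟨h1, ⟨fun x hx => ?_, fun i y z hy hz => ?_, fun i j y hi hj => ?_, ?_⟩,
      fun hd i _ j _ y z hy hz => ?_⟩
    · obtain ⟨i, y, rfl, hi⟩ := h2 x hx
      exact ⟨i, hi, y, (hM.of_pair_mem (hM.trans _ hf _ hx)).2, rfl⟩
    · obtain ⟨a, b, h6, a', b', h7, h8, -⟩ := h3 _ hy _ hz
      obtain ⟨rfl, rfl⟩ := ZFSet.pair_inj.1 h6
      obtain ⟨rfl, rfl⟩ := ZFSet.pair_inj.1 h7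
      exact h8 rfl
    · obtain ⟨a, b, h6, a', b', h7, -, h8⟩ := h3 _ hi _ hj
      obtain ⟨rfl, rfl⟩ := ZFSet.pair_inj.1 h6
      obtain ⟨rfl, rfl⟩ := ZFSet.pair_inj.1 h7
      exact h8 rfl
    · refine h4.imp (fun h => ?_) hdom.1
      ext x
      exact ⟨fun hx => (h x hx).elim, fun hx => absurd hx (ZFSet.notMem_empty _)⟩
    · obtain ⟨a, b, h6, a', b', h7, h8⟩ := h5 (hdom.2 hd) _ hy _ hz
      obtain ⟨rfl, rfl⟩ := ZFSet.pair_inj.1 h6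
      obtain ⟨rfl, rfl⟩ := ZFSet.pair_inj.1 h7
      exact h8
  · rintro ⟨h1, ⟨h2, h3, h4, h5⟩, h6⟩
    have hp : ∀ x ∈ f, ∃ i y, x = pair i y ∧ i ∈ d := by
      intro x hx
      obtain ⟨i, hi, y, -, rfl⟩ := h2 x hx
      exact ⟨i, y, rfl, hi⟩
    refine ⟨h1, hp, fun x hx x' hx' => ?_, ?_, fun hd x hx x' hx' => ?_⟩
    · obtain ⟨i, y, rfl, -⟩ := hp x hx
      obtain ⟨i', y', rfl, -⟩ := hp x' hx'
      refine ⟨i, y, rfl, i', y', rfl, ?_, ?_⟩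
      · rintro rfl
        exact h3 _ _ _ hx hx'
      · rintro rfl
        exact h4 _ _ _ hx hx'
    · refine h5.imp (fun h x hx => ?_) hdom.2
      rw [h] at hx
      exact ZFSet.notMem_empty _ hx
    · obtain ⟨i, y, rfl, hi⟩ := hp x hx
      obtain ⟨j, z, rfl, hj⟩ := hp x' hx'
      exact ⟨i, y, rfl, j, z, rfl, h6 (hdom.1 hd) i hi j hj y z hx hx'⟩

/-- Conditions are elements of the model. -/
theorem fcond_mem {M : Set ZFSet.{0}} (hM : IsZF M) {p : ZFSet.{0}} (hp : FCond M p) : p ∈ M := by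
  obtain ⟨d, e, f, rfl, ⟨h1, h2⟩, ⟨h3, -⟩, ⟨h4, h5, -⟩, -⟩ := hp
  have hd : ∀ x ∈ d, x ∈ M := fun x hx => hM.trans _ hM.infinity _ (h1 hx)
  refine hM.pair_mem (finite_mem hM h2 hd) (hM.pair_mem (finite_mem hM ?_ ?_) (finite_mem hM ?_ ?_))
  · refine ((h2.prod h2).image fun p => pair p.1 p.2).subset fun x hx => ?_
    obtain ⟨i, hi, j, hj, rfl⟩ := h3 x hx
    exact ⟨(i, j), ⟨hi, hj⟩, rfl⟩
  · intro x hx
    obtain ⟨i, hi, j, hj, rfl⟩ := h3 x hx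
    exact hM.pair_mem (hd i hi) (hd j hj)
  · refine Set.Finite.of_finite_image (f := Pool.Agent.W868.fs) (h2.subset ?_) ?_
    · rintro _ ⟨x, hx, rfl⟩
      obtain ⟨i, hi, y, -, rfl⟩ := h4 x hx
      rw [Pool.Agent.W868.fs_pair]
      exact hi
    · intro x hx x' hx' hxx
      obtain ⟨i, hi, y, -, rfl⟩ := h4 x hx
      obtain ⟨i', hi', y', -, rfl⟩ := h4 x' hx'
      rw [Pool.Agent.W868.fs_pair, Pool.Agent.W868.fs_pair] at hxx
      subst hxx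
      rw [h5 _ _ _ hx hx']
  · intro x hx
    obtain ⟨i, hi, y, hy, rfl⟩ := h4 x hx
    exact hM.pair_mem (hd i hi) hy

/-- The class of the conditions is defined by the same formula in all models. -/
theorem ud_fcond : Ud fun M (v : Fin 1 → ZFSet.{0}) => FCond M (v 0) := by
  have h : Ud fun M (v : Fin 1 → ZFSet.{0}) => ∃ d ∈ M, ∃ e ∈ M, ∃ f ∈ M, ∃ u ∈ M,
      ((v 0 = pair d u ∧ u = pair e f) ∧ Bd d e f) ∧
      ((∃ w ∈ M, (Ind w ∧ ∀ u ∈ M, Ind u → w ⊆ u) ∧ ∃ n ∈ w, d ⊆ n) ∧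
      ∀ s ∈ M, s ⊆ d → (∃ i ∈ s, True) → ∃ i ∈ s, ∀ j ∈ s, pair j i ∉ e) := by
    refine Ud.ex (Q := fun M d v => ∃ e ∈ M, ∃ f ∈ M, ∃ u ∈ M,
      ((v 0 = pair d u ∧ u = pair e f) ∧ Bd d e f) ∧
      ((∃ w ∈ M, (Ind w ∧ ∀ u ∈ M, Ind u → w ⊆ u) ∧ ∃ n ∈ w, d ⊆ n) ∧
      ∀ s ∈ M, s ⊆ d → (∃ i ∈ s, True) → ∃ i ∈ s, ∀ j ∈ s, pair j i ∉ e)) ?_
    refine Ud.ex (Q := fun M e v => ∃ f ∈ M, ∃ u ∈ M,
      ((v 1 = pair (v 0) u ∧ u = pair e f) ∧ Bd (v 0) e f) ∧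
      ((∃ w ∈ M, (Ind w ∧ ∀ u ∈ M, Ind u → w ⊆ u) ∧ ∃ n ∈ w, v 0 ⊆ n) ∧
      ∀ s ∈ M, s ⊆ v 0 → (∃ i ∈ s, True) → ∃ i ∈ s, ∀ j ∈ s, pair j i ∉ e)) ?_
    refine Ud.ex (Q := fun M f v => ∃ u ∈ M,
      ((v 2 = pair (v 1) u ∧ u = pair (v 0) f) ∧ Bd (v 1) (v 0) f) ∧
      ((∃ w ∈ M, (Ind w ∧ ∀ u ∈ M, Ind u → w ⊆ u) ∧ ∃ n ∈ w, v 1 ⊆ n) ∧
      ∀ s ∈ M, s ⊆ v 1 → (∃ i ∈ s, True) → ∃ i ∈ s, ∀ j ∈ s, pair j i ∉ v 0)) ?_
    refine Ud.ex (Q := fun M u v =>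
      ((v 3 = pair (v 2) u ∧ u = pair (v 1) (v 0)) ∧ Bd (v 2) (v 1) (v 0)) ∧
      ((∃ w ∈ M, (Ind w ∧ ∀ u ∈ M, Ind u → w ⊆ u) ∧ ∃ n ∈ w, v 2 ⊆ n) ∧
      ∀ s ∈ M, s ⊆ v 2 → (∃ i ∈ s, True) → ∃ i ∈ s, ∀ j ∈ s, pair j i ∉ v 1)) ?_
    refine Ud.and ?_ (Ud.and ?_ ?_)
    · refine Ud.of (((D0.isPair (D0v.proj 4) (D0v.proj 3) (D0v.proj 0)).and
        (D0.isPair (D0v.proj 0) (D0v.proj 2) (D0v.proj 1))).and
        (d0_bd (D0v.proj 3) (D0v.proj 2) (D0v.proj 1)))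
    · refine Ud.ex (Q := fun M w v => (Ind w ∧ ∀ u ∈ M, Ind u → w ⊆ u) ∧ ∃ n ∈ w, v 3 ⊆ n) ?_
      refine Ud.and (Ud.and (Ud.of (d0_ind (D0v.proj 0))) ?_) (Ud.of ?_)
      · refine Ud.all (Q := fun M u v => Ind u → v 0 ⊆ u) ?_
        exact (Ud.of (d0_ind (D0v.proj 0))).imp (Ud.of (D0.subset (D0v.proj 1) (D0v.proj 0)))
      · apply D0.bex (D0v.proj 0)
        exact D0.subset (D0v.proj 5) (D0v.proj 0)
    · refine Ud.all (Q := fun M s v => s ⊆ v 3 → (∃ i ∈ s, True) →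
        ∃ i ∈ s, ∀ j ∈ s, pair j i ∉ v 2) ?_
      refine Ud.of (D0.imp (D0.subset (D0v.proj 0) (D0v.proj 4)) (D0.imp ?_ ?_))
      · exact D0.bex (D0v.proj 0) D0.tt
      · apply D0.bex (D0v.proj 0)
        apply D0.ball (D0v.proj 1)
        exact (D0.pairMem (D0v.proj 0) (D0v.proj 1) (D0v.proj 5)).not
  refine h.congr fun M hM v hv => ?_
  constructor
  · rintro ⟨d, hd, e, he, f, hf, u, hu, ⟨⟨h1, rfl⟩, h2⟩, ⟨w, hw, h3, n, hn, hdn⟩, h4⟩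
    rw [omega_iff hM hw] at h3
    subst h3
    obtain ⟨n, rfl⟩ := mem_omega_iff.1 hn
    rw [bd_iff hM hf] at h2
    obtain ⟨h5, h6, h7⟩ := h2
    have hdf : {i | i ∈ d}.Finite := (finite_nat n).subset fun x hx => hdn hx
    refine ⟨d, e, f, h1, ⟨fun x hx => ?_, hdf⟩, ⟨h5, ?_⟩, h6, h7⟩
    · obtain ⟨i, -, rfl⟩ := mem_nat.1 (hdn hx)
      exact Pool.Agent.W868.nat_mem_omega i
    · exact (acyclic_iff hM hd hdf h5).2 fun s hs hsd ⟨i, hi⟩ => h4 s hs hsd ⟨i, hi, trivial⟩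
  · rintro ⟨d, e, f, h1, ⟨h2, h3⟩, ⟨h4, h5⟩, h6, h7⟩
    have hp : pair d (pair e f) ∈ M := h1 ▸ hv 0
    obtain ⟨hd, hef⟩ := hM.of_pair_mem hp
    obtain ⟨he, hf⟩ := hM.of_pair_mem hef
    obtain ⟨m, hm⟩ : ∃ m, ∀ i, nat i ∈ d → i < m := by
      have h8 : {i : ℕ | nat i ∈ d}.Finite :=
        h3.preimage (fun a _ b _ hab => Pool.Agent.W868.nat_injective hab)
      obtain ⟨b, hb⟩ := h8.bddAbove
      exact ⟨b + 1, fun i hi => by
        have := hb (show i ∈ {i : ℕ | nat i ∈ d} from hi)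
        omega⟩
    refine ⟨d, hd, e, he, f, hf, _, hef, ⟨⟨h1, rfl⟩, (bd_iff hM hf).2 ⟨h4, h6, h7⟩⟩,
      ⟨_, hM.infinity, (omega_iff hM hM.infinity).2 rfl, nat m,
        Pool.Agent.W868.nat_mem_omega m, fun x hx => ?_⟩, ?_⟩
    · obtain ⟨i, rfl⟩ := mem_omega_iff.1 (h2 hx)
      exact nat_mem_nat.2 (hm i hx)
    · rintro s hs hsd ⟨i, hi, -⟩
      exact (acyclic_iff hM hd h3 h4).1 h5 s hs hsd ⟨i, hi⟩

/-- The order is defined by the same formula in all models. -/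
theorem ud_fle : Ud fun _ (v : Fin 2 → ZFSet.{0}) => FLe (v 0) (v 1) := by
  have h : D0 fun v : Fin 2 → ZFSet.{0} => ∃ d u, v 0 = pair d u ∧ ∃ e f, u = pair e f ∧
      ∃ d' u', v 1 = pair d' u' ∧ ∃ e' f', u' = pair e' f' ∧
        (d' ⊆ d ∧ (∀ i ∈ d', ∀ j ∈ d', (pair i j ∈ e ↔ pair i j ∈ e')) ∧ f' ⊆ f) := by
    apply D0.expair (D0v.proj 0)
    refine D0.expair (Q := fun e f w => ∃ d' u', w 3 = pair d' u' ∧ ∃ e' f', u' = pair e' f' ∧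
      (d' ⊆ w 1 ∧ (∀ i ∈ d', ∀ j ∈ d', (pair i j ∈ e ↔ pair i j ∈ e')) ∧ f' ⊆ f))
      (D0v.proj 0) ?_
    refine D0.expair (Q := fun d' u' w => ∃ e' f', u' = pair e' f' ∧
      (d' ⊆ w 3 ∧ (∀ i ∈ d', ∀ j ∈ d', (pair i j ∈ w 1 ↔ pair i j ∈ e')) ∧ f' ⊆ w 0))
      (D0v.proj 5) ?_
    refine D0.expair (Q := fun e' f' w =>
      (w 1 ⊆ w 5 ∧ (∀ i ∈ w 1, ∀ j ∈ w 1, (pair i j ∈ w 3 ↔ pair i j ∈ e')) ∧ f' ⊆ w 2))
      (D0v.proj 0) ?_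
    apply D0.and
    · exact D0.subset (D0v.proj 3) (D0v.proj 7)
    · apply D0.and
      · apply D0.ball (D0v.proj 3)
        apply D0.ball (D0v.proj 4)
        exact (D0.pairMem (D0v.proj 1) (D0v.proj 0) (D0v.proj 7)).iff
          (D0.pairMem (D0v.proj 1) (D0v.proj 0) (D0v.proj 3))
      · exact D0.subset (D0v.proj 0) (D0v.proj 4)
  refine (Ud.of h).congr fun M hM v hv => ?_
  constructor
  · rintro ⟨d, u, h1, e, f, rfl, d', u', h2, e', f', rfl, h3, h4, h5⟩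
    exact ⟨d, e, f, d', e', f', h1, h2, h3, h4, h5⟩
  · rintro ⟨d, e, f, d', e', f', h1, h2, h3, h4, h5⟩
    exact ⟨d, _, h1, e, f, rfl, d', _, h2, e', f', rfl, h3, h4, h5⟩

theorem fle_antisymm {M : Set ZFSet.{0}} {p q : ZFSet.{0}} (hp : FCond M p) (hq : FCond M q)
    (h : FLe p q) (h' : FLe q p) : p = q := by
  obtain ⟨d, e, f, rfl, -, ⟨h1, -⟩, -⟩ := hp
  obtain ⟨d', e', f', rfl, -, ⟨h2, -⟩, -⟩ := hq
  obtain ⟨a1, a2, a3, a4, a5, a6, b1, b2, b3, b4, b5⟩ := h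
  obtain ⟨c1, c2, c3, c4, c5, c6, e1, e2, e3, e4, e5⟩ := h'
  obtain ⟨rfl, g1⟩ := ZFSet.pair_inj.1 b1
  obtain ⟨rfl, rfl⟩ := ZFSet.pair_inj.1 g1
  obtain ⟨rfl, g1⟩ := ZFSet.pair_inj.1 b2
  obtain ⟨rfl, rfl⟩ := ZFSet.pair_inj.1 g1
  obtain ⟨rfl, g1⟩ := ZFSet.pair_inj.1 e1
  obtain ⟨rfl, rfl⟩ := ZFSet.pair_inj.1 g1
  obtain ⟨rfl, g1⟩ := ZFSet.pair_inj.1 e2
  obtain ⟨rfl, rfl⟩ := ZFSet.pair_inj.1 g1
  have hd : d = d' := by
    ext x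
    exact ⟨fun hx => e3 hx, fun hx => b3 hx⟩
  have hf : f = f' := by
    ext x
    exact ⟨fun hx => e5 hx, fun hx => b5 hx⟩
  subst hd hf
  have he : e = e' := by
    ext x
    constructor
    · intro hx
      obtain ⟨i, hi, j, hj, rfl⟩ := h1 x hx
      exact (b4 i hi j hj).1 hx
    · intro hx
      obtain ⟨i, hi, j, hj, rfl⟩ := h2 x hx
      exact (b4 i hi j hj).2 hx
  rw [he]

/-! ### Invariance -/

theorem isGeneric_congr {S M P G : Set ZFSet.{0}} {le le' : ZFSet.{0} → ZFSet.{0} → Prop}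
    (h : ∀ p ∈ P, ∀ q ∈ P, (le p q ↔ le' p q)) (hG : IsGeneric S M P le G) :
    IsGeneric S M P le' G := by
  refine ⟨⟨hG.1.sub, hG.1.nonempty, fun p hp q hq hpq => ?_, fun p hp q hq => ?_⟩,
    fun D hD hd => ?_⟩
  · exact hG.1.up p hp q hq ((h p (hG.1.sub hp) q hq).2 hpq)
  · obtain ⟨r, hr, h1, h2⟩ := hG.1.dir p hp q hq
    exact ⟨r, hr, (h r (hG.1.sub hr) p (hG.1.sub hp)).1 h1,
      (h r (hG.1.sub hr) q (hG.1.sub hq)).1 h2⟩
  · refine hG.2 D hD ⟨hd.1, fun p hp => ?_⟩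
    obtain ⟨q, hq, h1⟩ := hd.2 p hp
    exact ⟨q, hq, (h q (hd.1 hq) p hp).2 h1⟩

theorem truthLemma_congr {S M P : Set ZFSet.{0}} {le le' : ZFSet.{0} → ZFSet.{0} → Prop}
    (h : ∀ p ∈ P, ∀ q ∈ P, (le p q ↔ le' p q)) (hT : TruthLemma S M P le) :
    TruthLemma S M P le' := by
  intro n φ σ hσ G hG hs
  obtain ⟨p, hp, h1⟩ := hT n φ σ hσ G (isGeneric_congr (fun p hp q hq => (h p hp q hq).symm) hG) hs
  exact ⟨p, hp, fun G' hG' hpG' => h1 G' (isGeneric_congr (fun p hp q hq => (h p hp q hq).symm) hG')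
    hpG'⟩

end Q207.CF
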